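import Mathlib

set_option autoImplicit false

/-!
# Frontiers of strictly star-shaped open sets are spheres
-/

open Set Filter Topology

namespace Pool.Agent.E8helper16.Shell

variable {E : Type*} [NormedAddCommGroup E] [InnerProductSpace ℝ E] [FiniteDimensional ℝ E]

omit [FiniteDimensional ℝ E] in
/-- a point which is a limit of points of the form `s • x` -/
lemma mem_closure_of_smul {T : Set E} {x : E} (h : ∀ s : ℝ, 0 ≤ s → s < 1 → s • x ∈ T) :
    x ∈ closure T := by
  have h1 : Tendsto (fun s : ℝ => s • x) (𝓝[<] 1) (𝓝 x) := by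
    have : Tendsto (fun s : ℝ => s • x) (𝓝 1) (𝓝 ((1:ℝ) • x)) :=
      (continuous_id.smul continuous_const).tendsto 1
    rw [one_smul] at this
    exact this.mono_left nhdsWithin_le_nhds
  refine mem_closure_of_tendsto h1 ?_
  filter_upwards [Ioo_mem_nhdsLT (zero_lt_one' ℝ)] with s hs
  exact h s hs.1.le hs.2

/-- The frontier of a bounded open set `T` containing the origin with `s • closure T ⊆ T` for all
`0 ≤ s < 1` is homeomorphic to the unit sphere. -/
theorem frontier_homeo {T : Set E} (hT : IsOpen T) (hb : Bornology.IsBounded T) (h0 : (0:E) ∈ T)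
    (hs : ∀ x ∈ closure T, ∀ s : ℝ, 0 ≤ s → s < 1 → s • x ∈ T) :
    Nonempty (frontier T ≃ₜ Metric.sphere (0:E) 1) := by
  have hcpt : IsCompact (frontier T) :=
    Metric.isCompact_of_isClosed_isBounded isClosed_frontier
      (hb.closure.subset frontier_subset_closure)
  have hfr : ∀ x, x ∈ frontier T ↔ x ∈ closure T ∧ x ∉ T := by
    intro x
    rw [hT.frontier_eq]
    rfl
  have hne : ∀ x ∈ frontier T, x ≠ 0 := by
    rintro x hx rfl
    exact ((hfr 0).1 hx).2 h0
  have hcomp : CompactSpace (frontier T) := isCompact_iff_compactSpace.1 hcpt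
  let φ : frontier T → Metric.sphere (0:E) 1 := fun x =>
    ⟨(‖(x:E)‖)⁻¹ • (x:E), by
      have hx : ‖(x:E)‖ ≠ 0 := norm_ne_zero_iff.2 (hne x x.2)
      rw [mem_sphere_zero_iff_norm, norm_smul, norm_inv, norm_norm, inv_mul_cancel₀ hx]⟩
  have hφc : Continuous φ := by
    refine Continuous.subtype_mk ?_ _
    have h1 : Continuous fun x : frontier T => (x:E) := continuous_subtype_val
    have h2 : ∀ x : frontier T, ‖(x:E)‖ ≠ 0 := fun x => norm_ne_zero_iff.2 (hne x x.2)
    exact (h1.norm.inv₀ h2).smul h1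
  have hinj : Function.Injective φ := by
    have key : ∀ x y : frontier T, φ x = φ y → ¬ ‖(x:E)‖ < ‖(y:E)‖ := by
      intro x y hxy hlt
      have h1 : (‖(x:E)‖)⁻¹ • (x:E) = (‖(y:E)‖)⁻¹ • (y:E) := congrArg Subtype.val hxy
      have hx : ‖(x:E)‖ ≠ 0 := norm_ne_zero_iff.2 (hne x x.2)
      have hy : ‖(y:E)‖ ≠ 0 := norm_ne_zero_iff.2 (hne y y.2)
      have hy' : 0 < ‖(y:E)‖ := norm_pos_iff.2 (hne y y.2)
      have h2 : (x:E) = (‖(x:E)‖ / ‖(y:E)‖) • (y:E) := by
        calc (x:E) = ‖(x:E)‖ • ((‖(x:E)‖)⁻¹ • (x:E)) := by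
              rw [smul_smul, mul_inv_cancel₀ hx, one_smul]
          _ = ‖(x:E)‖ • ((‖(y:E)‖)⁻¹ • (y:E)) := by rw [h1]
          _ = _ := by rw [smul_smul, div_eq_mul_inv]
      have h3 : (x:E) ∈ T := by
        rw [h2]
        refine hs y ((hfr y).1 y.2).1 _ (by positivity) ?_
        rw [div_lt_one hy']
        exact hlt
      exact ((hfr x).1 x.2).2 h3
    intro x y hxy
    have h1 : ‖(x:E)‖ = ‖(y:E)‖ := le_antisymm (not_lt.1 (key y x hxy.symm)) (not_lt.1 (key x y hxy))
    have h2 : (‖(x:E)‖)⁻¹ • (x:E) = (‖(y:E)‖)⁻¹ • (y:E) := congrArg Subtype.val hxy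
    have hy : ‖(y:E)‖ ≠ 0 := norm_ne_zero_iff.2 (hne y y.2)
    rw [h1] at h2
    exact Subtype.ext (smul_right_injective E (inv_ne_zero hy) h2)
  have hsurj : Function.Surjective φ := by
    rintro ⟨v, hv⟩
    rw [mem_sphere_zero_iff_norm] at hv
    set A : Set ℝ := {s | 0 ≤ s ∧ s • v ∈ T} with hA
    obtain ⟨ρ, hρ⟩ := hb.subset_ball (0:E)
    have hAbdd : BddAbove A := by
      refine ⟨ρ, ?_⟩
      rintro s ⟨hs0, hsT⟩
      have := hρ hsT
      rw [mem_ball_zero_iff, norm_smul, hv, mul_one, Real.norm_eq_abs, abs_of_nonneg hs0] at this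
      exact this.le
    have hA0 : (0:ℝ) ∈ A := ⟨le_rfl, by rw [zero_smul]; exact h0⟩
    set s := sSup A with hsdef
    have hs0 : 0 ≤ s := le_csSup hAbdd hA0
    have hsc : s • v ∈ closure T := by
      have h1 : s ∈ closure A := csSup_mem_closure ⟨0, hA0⟩ hAbdd
      have h2 : Continuous fun s : ℝ => s • v := by fun_prop
      have h3 : (fun s : ℝ => s • v) '' closure A ⊆ closure ((fun s : ℝ => s • v) '' A) :=
        image_closure_subset_closure_image h2
      have h4 : (fun s : ℝ => s • v) '' A ⊆ T := by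
        rintro _ ⟨a, ha, rfl⟩
        exact ha.2
      exact closure_mono h4 (h3 ⟨s, h1, rfl⟩)
    have hsn : s • v ∉ T := by
      intro hin
      have h2 : Continuous fun s : ℝ => s • v := by fun_prop
      have h3 : IsOpen ((fun s : ℝ => s • v) ⁻¹' T) := hT.preimage h2
      obtain ⟨ε, hε, hsub⟩ := Metric.isOpen_iff.1 h3 s hin
      have h4 : s + ε / 2 ∈ A := by
        refine ⟨by linarith, ?_⟩
        apply hsub
        rw [Metric.mem_ball, Real.dist_eq, add_sub_cancel_left, abs_of_pos (by linarith)]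
        linarith
      have := le_csSup hAbdd h4
      linarith
    have hspos : 0 < s := by
      rcases hs0.eq_or_lt with h | h
      · exfalso
        apply hsn
        rw [← h, zero_smul]
        exact h0
      · exact h
    refine ⟨⟨s • v, (hfr _).2 ⟨hsc, hsn⟩⟩, ?_⟩
    apply Subtype.ext
    show (‖s • v‖)⁻¹ • (s • v) = v
    rw [norm_smul, hv, mul_one, Real.norm_eq_abs, abs_of_pos hspos, smul_smul,
      inv_mul_cancel₀ hspos.ne', one_smul]
  exact ⟨Continuous.homeoOfEquivCompactToT2 (f := Equiv.ofBijective φ ⟨hinj, hsurj⟩) hφc⟩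

omit [FiniteDimensional ℝ E] in
/-- strictly star-shaped sets are connected -/
theorem star_connected {T : Set E} (h0 : (0:E) ∈ T)
    (hs : ∀ x ∈ closure T, ∀ s : ℝ, 0 ≤ s → s < 1 → s • x ∈ T) : IsConnected T := by
  have h1 : StarConvex ℝ (0:E) T := by
    rw [starConvex_zero_iff]
    intro x hx a ha0 ha1
    rcases ha1.eq_or_lt with h | h
    · rw [h, one_smul]; exact hx
    · exact hs x (subset_closure hx) a ha0 h
  exact (h1.isPathConnected h0).isConnected

end Pool.Agent.E8helper16.Shell
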