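import Pool.Agent.E8helper16.Shell.Mono
import Pool.Agent.E8helper16.Shell.Top

set_option autoImplicit false

/-!
# A hollow cube with constant potential in its cavity
-/

open MeasureTheory Set Filter Topology
open scoped ENNReal

namespace Pool.Agent.E8helper16.Shell

open Pool.Agent.H283R3.Newt

/-- the indicator of the cube -/
noncomputable def chi : E3 → ℝ := cube.indicator (fun _ => (1:ℝ))

lemma chi_adm : Adm cube chi := by
  refine ⟨measurable_const.indicator cube_open.measurableSet,
    fun x => indicator_nonneg (fun _ _ => zero_le_one) x, fun x => ?_,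
    fun x hx => indicator_of_notMem hx _⟩
  unfold chi indicator
  split_ifs <;> simp

/-- monotonicity in all coordinates -/
theorem V_solid {m : ℝ} {f : E3 → ℝ} (hf : Adm cube f) (hle : ∀ x, V f x ≤ m)
    (h1 : ∀ᵐ x, x ∈ cube → V f x < m → f x = 1) {x y : E3} (hxy : ∀ i, |x i| ≤ |y i|) :
    V f y ≤ V f x := by
  set y1 : E3 := WithLp.toLp 2 ![x 0, y 1, y 2] with hy1
  set y2 : E3 := WithLp.toLp 2 ![x 0, x 1, y 2] with hy2
  have a1 : V f y ≤ V f y1 := by
    refine V_coord hf hle h1 0 (fun j hj => ?_) (hxy 0)
    fin_cases j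
    · exact absurd rfl hj
    · rfl
    · rfl
  have a2 : V f y1 ≤ V f y2 := by
    refine V_coord hf hle h1 1 (fun j hj => ?_) (hxy 1)
    fin_cases j
    · rfl
    · exact absurd rfl hj
    · rfl
  have a3 : V f y2 ≤ V f x := by
    refine V_coord hf hle h1 2 (fun j hj => ?_) (hxy 2)
    fin_cases j
    · rfl
    · rfl
    · exact absurd rfl hj
  exact a1.trans (a2.trans a3)

/-- the potential of the cube at the centre exceeds that at the centres of the faces -/
theorem V_cube_lt (i : Fin 3) : V chi (EuclideanSpace.single i 1) < V chi 0 := by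
  set e : E3 := EuclideanSpace.single i 1 with he
  have hei : e i = 1 := by rw [he]; simp
  have hR : (0:ℝ) < 2 := by norm_num
  have hG := chi_adm.good cube_sub
  set h : E3 → ℝ := fun y => (dist 0 y)⁻¹ - (dist e y)⁻¹ with hh
  have hint : IntegrableOn h cube := by
    have h1 : IntegrableOn h (Metric.ball (0:E3) 2) := (kern_int hR 0 0).sub (kern_int hR 0 e)
    exact h1.mono_set cube_sub
  have hdiff : V chi 0 - V chi e = ∫ y in cube, h y := by
    unfold V
    rw [← integral_sub (hG.int_kern hR 0) (hG.int_kern hR e),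
      ← integral_indicator cube_open.measurableSet]
    congr 1
    ext y
    by_cases hy : y ∈ cube
    · rw [indicator_of_mem hy, chi, indicator_of_mem hy]; simp [hh]
    · rw [indicator_of_notMem hy, chi, indicator_of_notMem hy]; simp
  have hcoord : Continuous fun x : E3 => x i := by fun_prop
  set P : Set E3 := {y | 0 < y i} with hP
  have hPo : IsOpen P := isOpen_lt continuous_const hcoord
  have hsplit := integral_inter_add_sdiff (μ := volume) (s := cube) (t := P) hPo.measurableSet hint
  -- the part with positive coordinate contributes nothing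
  have hσ0 : sig i (1/2) 0 = e := by
    ext j
    by_cases hj : j = i
    · subst hj; rw [sig_same, hei]; simp
    · rw [sig_ne hj, he]; simp [hj]
  have hσe : sig i (1/2) e = 0 := by rw [← hσ0, sig_sig]
  have hA : ∫ y in cube ∩ P, h y = 0 := by
    have h1 := (sig_mp i (1/2)).setIntegral_preimage_emb
      (sig i (1/2)).toHomeomorph.measurableEmbedding h (cube ∩ P)
    have h2 : (sig i (1/2)) ⁻¹' (cube ∩ P) = cube ∩ P := by
      have key : ∀ y : E3, y ∈ cube ∩ P → sig i (1/2) y ∈ cube ∩ P := by
        rintro y ⟨hy1, hy2⟩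
        have hy3 : 0 < y i := hy2
        have hy4 := hy1 i
        rw [abs_lt] at hy4
        refine ⟨fun j => ?_, ?_⟩
        · by_cases hj : j = i
          · subst hj
            rw [sig_same, abs_lt]
            constructor <;> linarith [hy4.1, hy4.2]
          · rw [sig_ne hj]; exact hy1 j
        · show 0 < (sig i (1/2) y) i
          rw [sig_same]
          linarith [hy4.2]
      ext y
      constructor
      · intro hy
        have := key _ hy
        rwa [sig_sig] at this
      · exact key y
    have h3 : ∀ y, h (sig i (1/2) y) = - h y := by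
      intro y
      simp only [hh]
      have e1 : dist (0:E3) (sig i (1/2) y) = dist e y := by
        rw [← hσe, (sig i (1/2)).dist_eq]
      have e2 : dist e (sig i (1/2) y) = dist 0 y := by
        rw [← (sig i (1/2)).dist_eq 0 y, hσ0]
      rw [e1, e2]
      ring
    rw [h2] at h1
    have h4 : ∫ x in cube ∩ P, h (sig i (1/2) x) = - ∫ y in cube ∩ P, h y := by
      rw [← integral_neg]
      congr 1
      ext y
      exact h3 y
    have h5 : ∫ x in cube ∩ P, h (sig i (1/2) x) = ∫ y in cube ∩ P, h y := h1
    linarith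
  -- the rest contributes positively
  have hdist : ∀ y : E3, y i ≤ 0 → y ≠ 0 → 0 < h y := by
    intro y hy hy0
    have h1 : dist 0 y < dist e y := by
      rw [dist_comm, dist_zero_right, dist_eq_norm, ← sq_lt_sq₀ (norm_nonneg _) (norm_nonneg _),
        norm_sub_sq_real]
      have h2 : inner ℝ e y = y i := by rw [he, EuclideanSpace.inner_single_left]; simp
      have h3 : ‖e‖ = 1 := by rw [he]; simp
      rw [h2, h3]
      linarith
    have h4 : 0 < dist 0 y := dist_pos.2 hy0.symm
    simp only [hh]
    rw [sub_pos]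
    exact inv_strictAnti₀ h4 h1
  have hB : 0 < ∫ y in cube \ P, h y := by
    rw [setIntegral_pos_iff_support_of_nonneg_ae]
    · set O : Set E3 := cube ∩ {y | y i < 0} with hO
      have hOo : IsOpen O := cube_open.inter (isOpen_lt hcoord continuous_const)
      have hOne : O.Nonempty := by
        refine ⟨EuclideanSpace.single i (-1/2), fun j => ?_, ?_⟩
        · by_cases hj : j = i
          · subst hj; simp; norm_num [abs_lt]
          · simp [hj]
        · show (EuclideanSpace.single i (-1/2 : ℝ) : E3) i < 0
          simp; norm_num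
      refine lt_of_lt_of_le (hOo.measure_pos volume hOne) (measure_mono ?_)
      rintro y ⟨hy1, hy2⟩
      have hy3 : y i < 0 := hy2
      have hy0 : y ≠ 0 := by
        rintro rfl
        simp at hy3
      refine ⟨(hdist y hy3.le hy0).ne', hy1, ?_⟩
      show ¬ (0 < y i)
      linarith
    · have hne : ∀ᵐ y : E3, y ≠ 0 := by simp [ae_iff]
      rw [Filter.EventuallyLE, ae_restrict_iff' (cube_open.measurableSet.diff hPo.measurableSet)]
      filter_upwards [hne] with y hy hy2
      have hy3 : ¬ (0 < y i) := hy2.2
      exact (hdist y (not_lt.1 hy3) hy).le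
    · exact hint.mono_set sdiff_subset
  rw [hA, zero_add] at hsplit
  rw [hsplit] at hB
  linarith

lemma V_nonneg' (x : E3) : 0 ≤ V chi x := V_nonneg chi_adm.nonneg x

/-- outside the cube the potential of the cube is at most its value at the centre of some face -/
theorem V_out {x : E3} (hx : x ∉ cube) : ∃ i, V chi x ≤ V chi (EuclideanSpace.single i 1) := by
  have hR : (0:ℝ) < 2 := by norm_num
  have h1 : ∃ i, 1 ≤ |x i| := by
    by_contra hc
    push Not at hc
    exact hx hc
  obtain ⟨i, hi⟩ := h1
  refine ⟨i, ?_⟩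
  refine V_solid (m := 2 * Real.pi * 2 ^ 2 + 1) chi_adm ?_ ?_ ?_
  · intro y
    have := Good.V_bdd hR (chi_adm.good cube_sub) y
    have := (abs_le.1 this).2
    linarith
  · refine ae_of_all _ fun y hy _ => ?_
    rw [chi, indicator_of_mem hy]
  · intro j
    by_cases hj : j = i
    · subst hj
      simpa using hi
    · simp [hj]

lemma plane_null (i : Fin 3) : volume {x : E3 | x i = 0} = 0 := by
  have h1 : {x : E3 | x i = 0} =
      ((LinearMap.ker (EuclideanSpace.proj i : E3 →L[ℝ] ℝ).toLinearMap : Submodule ℝ E3) : Set E3) := by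
    ext x
    simp
  rw [h1]
  apply Measure.addHaar_submodule
  intro h
  have h2 : (EuclideanSpace.single i (1:ℝ) : E3) ∈
      (LinearMap.ker (EuclideanSpace.proj i : E3 →L[ℝ] ℝ).toLinearMap : Submodule ℝ E3) := by
    rw [h]; trivial
  simp at h2

/-- **The cavity.** There is an open set in the cube, with the frontier a topological sphere, such
that the potential of the cube without this set is constant in it. -/
theorem cavity : ∃ T : Set E3, IsOpen T ∧ IsConnected T ∧ Bornology.IsBounded T ∧
    Nonempty (frontier T ≃ₜ Metric.sphere (0:E3) 1) ∧ closure T ⊆ cube ∧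
    ∃ c : ℝ, ∀ P ∈ T, ∫ M in cube \ closure T, (dist P M)⁻¹ = c := by
  have hR : (0:ℝ) < 2 := by norm_num
  obtain ⟨M1, hM1, hM1lt, hM10⟩ : ∃ M1 : ℝ, (∀ i, V chi (EuclideanSpace.single i 1) ≤ M1) ∧
      M1 < V chi 0 ∧ 0 ≤ M1 := by
    refine ⟨max (V chi (EuclideanSpace.single 0 1)) (max (V chi (EuclideanSpace.single 1 1))
      (V chi (EuclideanSpace.single 2 1))), fun i => ?_, ?_, ?_⟩
    · fin_cases i
      · exact le_max_left _ _
      · exact (le_max_left _ _).trans (le_max_right _ _)
      · exact (le_max_right _ _).trans (le_max_right _ _)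
    · exact max_lt (V_cube_lt 0) (max_lt (V_cube_lt 1) (V_cube_lt 2))
    · exact (V_nonneg' _).trans (le_max_left _ _)
  set m : ℝ := (V chi 0 + M1) / 2 with hm
  have hm1 : M1 < m := by rw [hm]; linarith
  have hm2 : m < V chi 0 := by rw [hm]; linarith
  have hm0 : 0 < m := lt_of_le_of_lt hM10 hm1
  obtain ⟨f, hf, h1, h0⟩ := exists_dens hR cube_sub cube_open.measurableSet hm0
  have hle := V_le hR cube_sub hm0 hf h0
  have hcz := contact_zero hR cube_sub hf hle
  have hfG := hf.good cube_sub
  have hc := hfG.V_cont hR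
  -- the contact set lies in the cube
  have hKc : ∀ x, V f x = m → x ∈ cube := by
    intro x hx
    by_contra hxc
    obtain ⟨i, hi⟩ := V_out hxc
    have h2 : V f x ≤ V chi x := by
      refine V_mono hR hfG (chi_adm.good cube_sub) (fun y => ?_) x
      by_cases hy : y ∈ cube
      · rw [chi, indicator_of_mem hy]; exact hf.le_one y
      · rw [chi, indicator_of_notMem hy, hf.supp y hy]
    have h3 := hM1 i
    linarith
  have hplanes : ∀ᵐ x : E3, ∀ i, x i ≠ 0 := by
    rw [ae_all_iff]
    intro i
    rw [ae_iff]
    simpa using plane_null i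
  -- a point of the contact set off the coordinate planes
  obtain ⟨k0, hk0m, hk0⟩ : ∃ k : E3, V f k = m ∧ ∀ i, k i ≠ 0 := by
    by_contra hcon
    push Not at hcon
    have h2 : f =ᵐ[volume] chi := by
      filter_upwards [h1, hplanes] with x hx1 hx2
      by_cases hxc : x ∈ cube
      · rw [chi, indicator_of_mem hxc]
        refine hx1 hxc (lt_of_le_of_ne (hle x) fun hxm => ?_)
        obtain ⟨i, hi⟩ := hcon x hxm
        exact hx2 i hi
      · rw [chi, indicator_of_notMem hxc, hf.supp x hxc]
    have h3 : V f 0 = V chi 0 := by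
      unfold V
      refine integral_congr_ae ?_
      filter_upwards [h2] with y hy
      rw [hy]
    have := hle 0
    linarith
  set K : Set E3 := {x | V f x = m} with hK
  have hKcl : IsClosed K := isClosed_eq hc continuous_const
  set T : Set E3 := {x | ∃ k : E3, V f k = m ∧ ∀ i, |x i| < |k i|} with hT
  have hTK : T ⊆ K := by
    rintro x ⟨k, hk, hxk⟩
    have h2 := V_solid hf hle h1 (x := x) (y := k) (fun i => (hxk i).le)
    rw [hk] at h2
    exact le_antisymm (hle x) h2
  have hclK : closure T ⊆ K := closure_minimal hTK hKcl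
  have hcc : closure T ⊆ cube := fun x hx => hKc x (hclK hx)
  have hTo : IsOpen T := by
    have e : T = ⋃ k ∈ K, ⋂ i : Fin 3, {x : E3 | |x i| < |k i|} := by
      ext x
      simp only [hT, hK, mem_iUnion, mem_iInter, exists_prop]
      rfl
    rw [e]
    exact isOpen_biUnion fun k _ => isOpen_iInter_of_finite fun i =>
      isOpen_lt (by fun_prop) continuous_const
  have h0T : (0:E3) ∈ T := ⟨k0, hk0m, fun i => by simpa using hk0 i⟩
  have hb : Bornology.IsBounded T :=
    Metric.isBounded_ball.subset ((subset_closure.trans hcc).trans cube_sub)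
  have hs : ∀ x ∈ closure T, ∀ s : ℝ, 0 ≤ s → s < 1 → s • x ∈ T := by
    intro x hx s hs0 hs1
    set O : Set E3 := ⋂ i : Fin 3, {x' : E3 | x i ≠ 0 → s * |x i| < |x' i|} with hO
    have hOo : IsOpen O := by
      refine isOpen_iInter_of_finite fun i => ?_
      by_cases hxi : x i = 0
      · have : {x' : E3 | x i ≠ 0 → s * |x i| < |x' i|} = univ := by
          ext x'; simp [hxi]
        rw [this]; exact isOpen_univ
      · have : {x' : E3 | x i ≠ 0 → s * |x i| < |x' i|} = {x' : E3 | s * |x i| < |x' i|} := by
          ext x'; simp [hxi]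
        rw [this]
        exact isOpen_lt continuous_const (by fun_prop)
    have hxO : x ∈ O := by
      rw [hO, mem_iInter]
      intro i hxi
      have := abs_pos.2 hxi
      nlinarith
    obtain ⟨x', hx'O, k, hk, hx'k⟩ := mem_closure_iff.1 hx O hOo hxO
    refine ⟨k, hk, fun i => ?_⟩
    have h2 : |(s • x) i| = s * |x i| := by
      rw [PiLp.smul_apply, smul_eq_mul, abs_mul, abs_of_nonneg hs0]
    rw [h2]
    by_cases hxi : x i = 0
    · rw [hxi, abs_zero, mul_zero]
      exact lt_of_le_of_lt (abs_nonneg _) (hx'k i)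
    · rw [hO, mem_iInter] at hx'O
      exact (hx'O i hxi).trans (hx'k i)
  refine ⟨T, hTo, star_connected h0T hs, hb, frontier_homeo hTo hb h0T hs, hcc, m, fun P hP => ?_⟩
  have hVP : V f P = m := hTK hP
  rw [← hVP, ← integral_indicator (cube_open.measurableSet.diff isClosed_closure.measurableSet)]
  unfold V
  refine integral_congr_ae ?_
  filter_upwards [h1, hcz, hplanes] with x hx1 hx2 hx3
  by_cases hxc : x ∈ cube
  · by_cases hxm : V f x = m
    · have hxT : x ∈ closure T := by
        refine mem_closure_of_smul fun s hs0 hs1 => ?_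
        show ∃ k : E3, V f k = m ∧ ∀ i, |(s • x) i| < |k i|
        refine ⟨x, hxm, fun i => ?_⟩
        rw [PiLp.smul_apply, smul_eq_mul, abs_mul, abs_of_nonneg hs0]
        have := abs_pos.2 (hx3 i)
        nlinarith
      have hmem : x ∉ cube \ closure T := fun h => h.2 hxT
      rw [indicator_of_notMem hmem, hx2 hxm, zero_mul]
    · have hxT : x ∉ closure T := fun h => hxm (hclK h)
      have hmem : x ∈ cube \ closure T := ⟨hxc, hxT⟩
      rw [indicator_of_mem hmem, hx1 hxc (lt_of_le_of_ne (hle x) hxm), one_mul]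
  · have hmem : x ∉ cube \ closure T := fun h => hxc h.1
    rw [indicator_of_notMem hmem, hf.supp x hxc, zero_mul]

lemma cube_star : ∀ x ∈ closure cube, ∀ s : ℝ, 0 ≤ s → s < 1 → s • x ∈ cube := by
  intro x hx s hs0 hs1 i
  have hcl : closure cube ⊆ {x : E3 | |x i| ≤ 1} := by
    refine closure_minimal (fun y hy => (hy i).le) ?_
    exact isClosed_le (by fun_prop) continuous_const
  have h1 : |x i| ≤ 1 := hcl hx
  rw [PiLp.smul_apply, smul_eq_mul, abs_mul, abs_of_nonneg hs0]
  nlinarith [abs_nonneg (x i)]

lemma cube_zero : (0:E3) ∈ cube := fun i => by simp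

lemma mem_frontier_cube {a b : ℝ} (ha : |a| < 1) (hb : |b| < 1) :
    (WithLp.toLp 2 ![1, a, b] : E3) ∈ frontier cube := by
  rw [cube_open.frontier_eq]
  refine ⟨mem_closure_of_smul fun s hs0 hs1 i => ?_, fun h => ?_⟩
  · rw [PiLp.smul_apply, smul_eq_mul, abs_mul, abs_of_nonneg hs0]
    fin_cases i
    · show s * |(1:ℝ)| < 1
      rw [abs_one]; linarith
    · show s * |a| < 1
      nlinarith [abs_nonneg a]
    · show s * |b| < 1
      nlinarith [abs_nonneg b]
  · have := h 0
    have h2 : |(1:ℝ)| < 1 := this
    rw [abs_one] at h2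
    exact lt_irrefl _ h2

/-- the boundary of the cube is not an ellipsoid -/
theorem cube_not_ellipsoid (f : E3 ≃ᵃ[ℝ] E3) : frontier cube ≠ f '' Metric.sphere (0:E3) 1 := by
  intro h
  have hp := mem_frontier_cube (a := 0) (b := 0) (by simp) (by simp)
  have hq := mem_frontier_cube (a := 1/2) (b := 0) (by norm_num [abs_lt]) (by simp)
  have hr := mem_frontier_cube (a := 1/4) (b := 0) (by norm_num [abs_lt]) (by simp)
  rw [h] at hp hq hr
  obtain ⟨p, hp1, hp2⟩ := hp
  obtain ⟨q, hq1, hq2⟩ := hq
  obtain ⟨r, hr1, hr2⟩ := hr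
  have hmid : r = midpoint ℝ p q := by
    apply f.injective
    rw [hr2, AffineEquiv.map_midpoint, hp2, hq2, midpoint_eq_smul_add]
    ext i
    fin_cases i
    · simp; norm_num
    · simp; norm_num
    · simp
  rw [mem_sphere_zero_iff_norm] at hp1 hq1 hr1
  have hpq : p ≠ q := by
    rintro rfl
    rw [hp2] at hq2
    have := congrArg (fun v : E3 => v 1) hq2
    simp at this
  have h2 := (norm_midpoint_lt_iff (hp1.trans hq1.symm)).2 hpq
  rw [hmid, midpoint_eq_smul_add, invOf_eq_inv] at hr1
  rw [one_div, hr1, hp1] at h2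
  exact lt_irrefl _ h2

end Pool.Agent.E8helper16.Shell
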