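import Mathlib

set_option autoImplicit false

/-!
# Weak sequential compactness of the densities with values in `[0, 1]`
-/

open MeasureTheory Set Filter Topology
open scoped ENNReal

namespace Pool.Agent.E8helper16.Shell

/-- Every sequence of measurable functions with values in `[0, 1]` on a finite measure space has
a subsequence converging weakly in `L²` to a function with values in `[0, 1]`. -/
theorem weak_dens {X : Type*} [MeasurableSpace X] [MeasurableSpace.CountablyGenerated X]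
    (μ : Measure X) [IsFiniteMeasure μ] (g : ℕ → X → ℝ) (hm : ∀ n, Measurable (g n))
    (h0 : ∀ n x, 0 ≤ g n x) (h1 : ∀ n x, g n x ≤ 1) :
    ∃ (f : X → ℝ) (ψ : ℕ → ℕ), StrictMono ψ ∧ Measurable f ∧ (∀ x, 0 ≤ f x) ∧ (∀ x, f x ≤ 1) ∧
      ∀ h : X → ℝ, MemLp h 2 μ →
        Tendsto (fun n => ∫ x, g (ψ n) x * h x ∂μ) atTop (𝓝 (∫ x, f x * h x ∂μ)) := by
  have hbd : ∀ n x, ‖g n x‖ ≤ 1 := fun n x => by
    rw [Real.norm_eq_abs, abs_of_nonneg (h0 n x)]; exact h1 n x
  have hL : ∀ n, MemLp (g n) 2 μ := fun n =>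
    MemLp.of_bound (hm n).aestronglyMeasurable 1 (ae_of_all _ (hbd n))
  set F : ℕ → Lp ℝ 2 μ := fun n => (hL n).toLp with hF
  set C : ℝ := (μ univ ^ (1 / (2:ℝ))).toReal with hC
  have hFn : ∀ n, ‖F n‖ ≤ C := by
    intro n
    rw [hF]
    simp only
    rw [Lp.norm_toLp]
    have h2 := eLpNorm_le_of_ae_bound (p := 2) (μ := μ) (f := g n) (C := 1) (ae_of_all _ (hbd n))
    have h3 : (μ univ ^ (2:ℝ≥0∞).toReal⁻¹ * ENNReal.ofReal 1) = μ univ ^ (1 / (2:ℝ)) := by
      simp
    rw [h3] at h2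
    exact ENNReal.toReal_mono (ENNReal.rpow_ne_top_of_nonneg (by norm_num) (measure_ne_top _ _)) h2
  have : Fact ((2 : ℝ≥0∞) ≠ ⊤) := ⟨by norm_num⟩
  have hcomp := WeakDual.isSeqCompact_closedBall (𝕜 := ℝ) (E := Lp ℝ 2 μ) 0 C
  obtain ⟨φ, -, ψ, hψ, hlim⟩ := hcomp
    (x := fun n => StrongDual.toWeakDual (InnerProductSpace.toDual ℝ (Lp ℝ 2 μ) (F n)))
    (fun n => by
      rw [Set.mem_preimage, mem_closedBall_zero_iff]
      change ‖InnerProductSpace.toDual ℝ (Lp ℝ 2 μ) (F n)‖ ≤ _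
      rw [LinearIsometryEquiv.norm_map]
      exact hFn n)
  set R : Lp ℝ 2 μ :=
    (InnerProductSpace.toDual ℝ (Lp ℝ 2 μ)).symm (WeakDual.toStrongDual φ) with hR
  have hlim2 : ∀ h : X → ℝ, MemLp h 2 μ →
      Tendsto (fun n => ∫ x, g (ψ n) x * h x ∂μ) atTop (𝓝 (∫ x, R x * h x ∂μ)) := by
    intro h hg
    have e1 : ∀ (f : X → ℝ) (hf : MemLp f 2 μ),
        inner ℝ (hf.toLp) (hg.toLp) = ∫ x, f x * h x ∂μ := by
      intro f hf
      rw [L2.inner_def]
      refine integral_congr_ae ?_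
      filter_upwards [hf.coeFn_toLp, hg.coeFn_toLp] with x hx hx'
      rw [hx, hx']
      simp [mul_comm]
    have e2 : inner ℝ R (hg.toLp) = ∫ x, R x * h x ∂μ := by
      rw [L2.inner_def]
      refine integral_congr_ae ?_
      filter_upwards [hg.coeFn_toLp] with x hx'
      rw [hx']
      simp [mul_comm]
    have e3 := ((WeakDual.eval_continuous (𝕜 := ℝ) (E := Lp ℝ 2 μ) (hg.toLp)).tendsto φ).comp hlim
    have e4 : (WeakDual.toStrongDual φ) (hg.toLp) = inner ℝ R (hg.toLp) := by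
      rw [hR, InnerProductSpace.toDual_symm_apply]
    rw [← e2, ← e4]
    refine e3.congr fun n => ?_
    exact e1 _ (hL (ψ n))
  have hRL : MemLp R 2 μ := Lp.memLp R
  have hRi : Integrable R μ := hRL.integrable (by norm_num)
  have hind : ∀ s : Set X, MeasurableSet s → MemLp (s.indicator (fun _ => (1:ℝ))) 2 μ :=
    fun s hs => (memLp_const (1:ℝ)).indicator hs
  have hint : ∀ (s : Set X), MeasurableSet s → ∀ u : X → ℝ,
      ∫ x, u x * s.indicator (fun _ => (1:ℝ)) x ∂μ = ∫ x in s, u x ∂μ := by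
    intro s hs u
    rw [← integral_indicator hs]
    congr 1
    ext x
    by_cases hx : x ∈ s
    · simp [hx]
    · simp [hx]
  have hgi : ∀ n, Integrable (g n) μ := fun n => (hL n).integrable (by norm_num)
  have hR0 : 0 ≤ᵐ[μ] R := by
    refine ae_nonneg_of_forall_setIntegral_nonneg hRi fun s hs _ => ?_
    have h2 := hlim2 _ (hind s hs)
    rw [hint s hs] at h2
    refine ge_of_tendsto' h2 fun n => ?_
    rw [hint s hs]
    exact integral_nonneg fun x => h0 _ x
  have hR1 : 0 ≤ᵐ[μ] fun x => 1 - R x := by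
    refine ae_nonneg_of_forall_setIntegral_nonneg ((integrable_const (1:ℝ)).sub hRi) fun s hs _ => ?_
    have h2 := hlim2 _ (hind s hs)
    rw [hint s hs] at h2
    rw [integral_sub (integrable_const _) hRi.integrableOn]
    rw [sub_nonneg]
    refine le_of_tendsto' h2 fun n => ?_
    rw [hint s hs]
    exact integral_mono (hgi _).integrableOn (integrable_const _) fun x => h1 _ x
  have hRm : AEStronglyMeasurable R μ := Lp.aestronglyMeasurable R
  refine ⟨fun x => max 0 (min 1 (hRm.mk R x)), ψ, hψ, ?_, fun x => le_max_left _ _,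
    fun x => max_le zero_le_one (min_le_left _ _), fun h hh => ?_⟩
  · have := hRm.stronglyMeasurable_mk.measurable
    fun_prop
  · have e : ∫ x, max 0 (min 1 (hRm.mk R x)) * h x ∂μ = ∫ x, R x * h x ∂μ := by
      refine integral_congr_ae ?_
      filter_upwards [hRm.ae_eq_mk, hR0, hR1] with x hx hx0 hx1
      rw [← hx]
      simp only [Pi.zero_apply] at hx0 hx1
      rw [min_eq_right (by linarith), max_eq_right hx0]
    rw [e]
    exact hlim2 h hh

end Pool.Agent.E8helper16.Shell
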