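import Pool.Agent.H283R3.Newt3
import Pool.Agent.E8helper16.Shell.Weak

set_option autoImplicit false

/-!
# Minimisers of the Newtonian energy among the densities with values in `[0, 1]`
-/

open MeasureTheory Set Filter Topology
open scoped ENNReal

namespace Pool.Agent.E8helper16.Shell

open Pool.Agent.H283R3.Newt

/-- admissible densities on `U` -/
structure Adm (U : Set E3) (g : E3 → ℝ) : Prop where
  meas : Measurable g
  nonneg : ∀ x, 0 ≤ g x
  le_one : ∀ x, g x ≤ 1
  supp : ∀ x, x ∉ U → g x = 0

variable {U : Set E3} {R : ℝ}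

lemma Adm.good {g : E3 → ℝ} (h : Adm U g) (hU : U ⊆ Metric.ball 0 R) : Good R g := by
  refine ⟨h.meas, fun y => ?_⟩
  by_cases hy : y ∈ Metric.ball (0:E3) R
  · rw [indicator_of_mem hy, abs_of_nonneg (h.nonneg y)]
    exact h.le_one y
  · rw [indicator_of_notMem hy, h.supp y (fun h' => hy (hU h'))]
    simp

lemma Adm.sub_good {f g : E3 → ℝ} (hf : Adm U f) (hg : Adm U g) (hU : U ⊆ Metric.ball 0 R) :
    Good R (fun y => g y - f y) := by
  refine ⟨hg.meas.sub hf.meas, fun y => ?_⟩
  by_cases hy : y ∈ Metric.ball (0:E3) R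
  · rw [indicator_of_mem hy, Pi.one_apply, abs_le]
    have := hf.nonneg y
    have := hg.nonneg y
    have := hf.le_one y
    have := hg.le_one y
    constructor <;> linarith
  · rw [indicator_of_notMem hy, hf.supp y (fun h' => hy (hU h')), hg.supp y (fun h' => hy (hU h'))]
    simp

lemma Good.absGood {τ : E3 → ℝ} (h : Good R τ) : Good R (fun y => |τ y|) := by
  refine ⟨by have := h.meas; fun_prop, fun y => ?_⟩
  rw [abs_abs]
  exact h.bd y

/-- the potential is bounded -/
lemma Good.V_bdd (hR : 0 < R) {τ : E3 → ℝ} (h : Good R τ) (x : E3) :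
    |V τ x| ≤ 2 * Real.pi * R ^ 2 :=
  (h.V_abs_le hR x).trans (Nn_le hR (norm_nonneg x))

lemma Good.int_mul_V (hR : 0 < R) {τ τ' : E3 → ℝ} (h : Good R τ) (h' : Good R τ') :
    Integrable (fun x => τ x * V τ' x) := by
  have h1 : Integrable (fun x => V τ' x * τ x) :=
    (h.integrable hR).bdd_mul (c := 2 * Real.pi * R ^ 2)
      (h'.V_cont hR).aestronglyMeasurable (ae_of_all _ fun x => by
        rw [Real.norm_eq_abs]; exact Good.V_bdd hR h' x)
  refine h1.congr (ae_of_all _ fun x => ?_)
  simp only
  ring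

lemma Good.symmV (hR : 0 < R) {τ τ' : E3 → ℝ} (h : Good R τ) (h' : Good R τ') :
    ∫ x, τ x * V τ' x = ∫ x, τ' x * V τ x := by
  have hi : Integrable (fun p : E3 × E3 => τ p.1 * (τ' p.2 * (dist p.1 p.2)⁻¹))
      (volume.prod volume) := by
    rw [integrable_prod_iff]
    · constructor
      · refine ae_of_all _ fun x => ?_
        show Integrable (fun y => τ x * (τ' y * (dist x y)⁻¹)) volume
        exact (h'.int_kern hR x).const_mul _
      · have h1 : ∀ x : E3, ∫ y, ‖τ x * (τ' y * (dist x y)⁻¹)‖ = |τ x| * V (fun y => |τ' y|) x := by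
          intro x
          unfold V
          rw [← integral_const_mul]
          congr 1
          ext y
          rw [Real.norm_eq_abs, abs_mul, abs_mul,
            abs_of_nonneg (inv_nonneg.2 dist_nonneg : 0 ≤ (dist x y)⁻¹)]
        simp_rw [h1]
        exact Good.int_mul_V hR (Good.absGood h) (Good.absGood h')
    · have := h.meas
      have := h'.meas
      fun_prop
  have h2 := integral_integral_swap (f := fun x y => τ x * (τ' y * (dist x y)⁻¹)) hi
  unfold V
  calc ∫ x, τ x * ∫ y, τ' y * (dist x y)⁻¹ = ∫ x, ∫ y, τ x * (τ' y * (dist x y)⁻¹) := by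
        congr 1; ext x; rw [integral_const_mul]
    _ = ∫ y, ∫ x, τ x * (τ' y * (dist x y)⁻¹) := h2
    _ = ∫ y, τ' y * ∫ x, τ x * (dist y x)⁻¹ := by
        congr 1; ext y; rw [← integral_const_mul]; congr 1; ext x; rw [dist_comm]; ring

/-- the functional -/
noncomputable def J (m : ℝ) (g : E3 → ℝ) : ℝ := (1 / 2) * (∫ x, g x * V g x) - m * (∫ x, g x)

lemma V_nonneg {g : E3 → ℝ} (h : ∀ x, 0 ≤ g x) (x : E3) : 0 ≤ V g x :=
  integral_nonneg fun y => mul_nonneg (h y) (inv_nonneg.2 dist_nonneg)

lemma V_mono (hR : 0 < R) {f g : E3 → ℝ} (hf : Good R f) (hg : Good R g) (h : ∀ x, f x ≤ g x)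
    (x : E3) : V f x ≤ V g x :=
  integral_mono (hf.int_kern hR x) (hg.int_kern hR x) fun y =>
    mul_le_mul_of_nonneg_right (h y) (inv_nonneg.2 dist_nonneg)

lemma V_sub (hR : 0 < R) {f g : E3 → ℝ} (hf : Good R f) (hg : Good R g) (x : E3) :
    V (fun y => g y - f y) x = V g x - V f x := by
  unfold V
  rw [← integral_sub (hg.int_kern hR x) (hf.int_kern hR x)]
  congr 1
  ext y
  ring

lemma exists_min (hR : 0 < R) (hU : U ⊆ Metric.ball 0 R) (hUm : MeasurableSet U) {m : ℝ}
    (hm : 0 < m) : ∃ f, Adm U f ∧ ∀ g, Adm U g → J m f ≤ J m g := by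
  classical
  have hfin : IsFiniteMeasure (volume.restrict U) :=
    ⟨by rw [Measure.restrict_apply_univ]; exact lt_of_le_of_lt (measure_mono hU) measure_ball_lt_top⟩
  set S : Set ℝ := {a | ∃ g, Adm U g ∧ a = J m g} with hS
  have hzero : Adm U (fun _ => (0:ℝ)) := ⟨measurable_const, fun _ => le_rfl, fun _ => zero_le_one,
    fun _ _ => rfl⟩
  have hne : S.Nonempty := ⟨_, _, hzero, rfl⟩
  -- integrals over the whole space are integrals over `U`
  have hres : ∀ (g : E3 → ℝ), (∀ x, x ∉ U → g x = 0) → ∫ x in U, g x = ∫ x, g x := by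
    intro g hg
    exact setIntegral_eq_integral_of_forall_compl_eq_zero hg
  have hb : ∀ g, Adm U g → -(m * (volume.restrict U).real univ) ≤ J m g := by
    intro g hg
    have h1 : 0 ≤ ∫ x, g x * V g x :=
      integral_nonneg fun x => mul_nonneg (hg.nonneg x) (V_nonneg hg.nonneg x)
    have h2 : ∫ x, g x ≤ (volume.restrict U).real univ := by
      rw [← hres g hg.supp]
      have : ∫ x in U, g x ≤ ∫ x in U, (1:ℝ) := by
        refine integral_mono ((hg.good hU).integrable hR).integrableOn (integrable_const _) ?_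
        exact fun x => hg.le_one x
      refine this.trans (le_of_eq ?_)
      simp
    unfold J
    nlinarith
  have hbdd : BddBelow S := by
    refine ⟨-(m * (volume.restrict U).real univ), ?_⟩
    rintro a ⟨g, hg, rfl⟩
    exact hb g hg
  -- a minimising sequence
  have hseq : ∀ n : ℕ, ∃ g, Adm U g ∧ J m g < sInf S + 1 / ((n:ℝ) + 1) := by
    intro n
    obtain ⟨a, ⟨g, hg, rfl⟩, ha⟩ := exists_lt_of_csInf_lt hne
      (lt_add_of_pos_right (sInf S) (by positivity : (0:ℝ) < 1 / ((n:ℝ) + 1)))
    exact ⟨g, hg, ha⟩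
  choose g hg hgJ using hseq
  obtain ⟨f0, ψ, hψ, hf0m, hf00, hf01, hlim⟩ := weak_dens (volume.restrict U) g
    (fun n => (hg n).meas) (fun n => (hg n).nonneg) (fun n => (hg n).le_one)
  set f : E3 → ℝ := U.indicator f0 with hf
  have hfA : Adm U f := by
    refine ⟨hf0m.indicator hUm, fun x => indicator_nonneg (fun x _ => hf00 x) x, fun x => ?_,
      fun x hx => indicator_of_notMem hx _⟩
    by_cases hx : x ∈ U
    · rw [hf, indicator_of_mem hx]; exact hf01 x
    · rw [hf, indicator_of_notMem hx]; exact zero_le_one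
  have hlim' : ∀ h : E3 → ℝ, MemLp h 2 (volume.restrict U) →
      Tendsto (fun n => ∫ x, g (ψ n) x * h x) atTop (𝓝 (∫ x, f x * h x)) := by
    intro h hh
    have h1 := hlim h hh
    have h2 : ∫ x in U, f0 x * h x = ∫ x, f x * h x := by
      rw [← hres (fun x => f x * h x) (fun x hx => by rw [hfA.supp x hx, zero_mul])]
      refine setIntegral_congr_fun hUm fun x hx => ?_
      rw [hf, indicator_of_mem hx]
    rw [h2] at h1
    refine h1.congr fun n => ?_
    exact hres (fun x => g (ψ n) x * h x)
      (fun x hx => by rw [(hg (ψ n)).supp x hx, zero_mul])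
  have hbL : ∀ (h : E3 → ℝ) (C : ℝ), Continuous h → (∀ x, |h x| ≤ C) →
      MemLp h 2 (volume.restrict U) := by
    intro h C hc hC
    exact MemLp.of_bound hc.aestronglyMeasurable C (ae_of_all _ fun x => by
      rw [Real.norm_eq_abs]; exact hC x)
  -- pointwise convergence of the potentials
  have hpt : ∀ x, Tendsto (fun n => V (g (ψ n)) x) atTop (𝓝 (V f x)) := by
    intro x
    rw [Metric.tendsto_atTop]
    intro δ hδ
    obtain ⟨ε, hε, hεδ⟩ : ∃ ε > 0, 2 * Real.pi * ε ^ 2 < δ / 3 := by
      have h2 : Tendsto (fun n : ℕ => 2 * Real.pi * (1 / ((n:ℝ) + 1)) ^ 2) atTop (𝓝 0) := by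
        have := ((tendsto_one_div_add_atTop_nhds_zero_nat (𝕜 := ℝ)).pow 2).const_mul (2 * Real.pi)
        simpa using this
      obtain ⟨n, hn⟩ := (h2.eventually (gt_mem_nhds (by linarith : 0 < δ / 3))).exists
      exact ⟨1 / ((n:ℝ) + 1), by positivity, hn⟩
    have hk : MemLp (fun y : E3 => (max (dist x y) ε)⁻¹) 2 (volume.restrict U) := by
      refine hbL _ ε⁻¹ ?_ fun y => ?_
      · have : ∀ y, max (dist x y) ε ≠ 0 := fun y => (lt_of_lt_of_le hε (le_max_right _ _)).ne'
        fun_prop (disch := assumption)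
      · rw [abs_of_nonneg (by positivity)]
        gcongr
        exact le_max_right _ _
    have h1 := hlim' _ hk
    rw [Metric.tendsto_atTop] at h1
    obtain ⟨N, hN⟩ := h1 (δ / 3) (by linarith)
    refine ⟨N, fun n hn => ?_⟩
    have h2 := hN n hn
    have h3 := Vt_close hR ((hg (ψ n)).good hU) hε x
    have h4 := Vt_close hR (hfA.good hU) hε x
    rw [Real.dist_eq] at h2 ⊢
    unfold Vt at h3 h4
    rw [abs_lt] at h2 ⊢
    rw [abs_le] at h3 h4
    constructor <;> linarith [h2.1, h2.2, h3.1, h3.2, h4.1, h4.2]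
  set B : ℝ := 2 * Real.pi * R ^ 2 with hB
  have hBn : ∀ n x, |V (g (ψ n)) x| ≤ B := fun n x => Good.V_bdd hR ((hg (ψ n)).good hU) x
  have hBf : ∀ x, |V f x| ≤ B := fun x => Good.V_bdd hR (hfA.good hU) x
  -- convergence of the energies
  have hL1 : Tendsto (fun n => ∫ x in U, |V (g (ψ n)) x - V f x|) atTop (𝓝 0) := by
    have h1 : Tendsto (fun n => ∫ x in U, |V (g (ψ n)) x - V f x|) atTop
        (𝓝 (∫ x in U, (0:ℝ))) := by
      refine tendsto_integral_of_dominated_convergence (fun _ => 2 * B) ?_ (integrable_const _) ?_ ?_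
      · intro n
        have h1 := ((hg (ψ n)).good hU).V_cont hR
        have h2 := (hfA.good hU).V_cont hR
        exact (h1.sub h2).abs.aestronglyMeasurable
      · intro n
        refine ae_of_all _ fun x => ?_
        rw [Real.norm_eq_abs, abs_abs]
        have h1 := hBn n x
        have h2 := hBf x
        rw [abs_le] at h1 h2 ⊢
        constructor <;> linarith [h1.1, h1.2, h2.1, h2.2]
      · refine ae_of_all _ fun x => ?_
        have := ((hpt x).sub_const (V f x)).abs
        simpa using this
    simpa using h1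
  have hE : Tendsto (fun n => ∫ x, g (ψ n) x * V (g (ψ n)) x) atTop (𝓝 (∫ x, f x * V f x)) := by
    have h1 := hlim' (V f) (hbL _ B ((hfA.good hU).V_cont hR) hBf)
    have h2 : Tendsto (fun n => ∫ x, g (ψ n) x * (V (g (ψ n)) x - V f x)) atTop (𝓝 0) := by
      refine squeeze_zero_norm (fun n => ?_) hL1
      rw [← hres _ (fun x hx => by rw [(hg (ψ n)).supp x hx, zero_mul])]
      refine (norm_integral_le_integral_norm _).trans ?_
      have hc1 := ((hg (ψ n)).good hU).V_cont hR
      have hc2 := (hfA.good hU).V_cont hR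
      have hint2 : Integrable (fun x => |V (g (ψ n)) x - V f x|) (volume.restrict U) := by
        refine (integrable_const (2 * B)).mono' (hc1.sub hc2).abs.aestronglyMeasurable
          (ae_of_all _ fun x => ?_)
        rw [Real.norm_eq_abs, abs_abs]
        have h1 := hBn n x
        have h2 := hBf x
        rw [abs_le] at h1 h2 ⊢
        constructor <;> linarith [h1.1, h1.2, h2.1, h2.2]
      refine integral_mono_of_nonneg (ae_of_all _ fun x => norm_nonneg _) hint2
        (ae_of_all _ fun x => ?_)
      simp only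
      rw [norm_mul, Real.norm_eq_abs, Real.norm_eq_abs, abs_of_nonneg ((hg (ψ n)).nonneg x)]
      have := (hg (ψ n)).le_one x
      nlinarith [abs_nonneg (V (g (ψ n)) x - V f x)]
    have h3 := h2.add h1
    rw [zero_add] at h3
    refine h3.congr fun n => ?_
    have hn := (hg (ψ n)).good hU
    rw [← integral_add]
    · congr 1
      ext x
      ring
    · have e : (fun x => g (ψ n) x * (V (g (ψ n)) x - V f x)) =
          fun x => g (ψ n) x * V (g (ψ n)) x - g (ψ n) x * V f x := by ext x; ring
      rw [e]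
      exact (Good.int_mul_V hR hn hn).sub (Good.int_mul_V hR hn (hfA.good hU))
    · exact Good.int_mul_V hR hn (hfA.good hU)
  have hM : Tendsto (fun n => ∫ x, g (ψ n) x) atTop (𝓝 (∫ x, f x)) := by
    have h1 := hlim' (fun _ => (1:ℝ)) (hbL _ 1 continuous_const (fun x => by simp))
    simpa using h1
  have hJ : Tendsto (fun n => J m (g (ψ n))) atTop (𝓝 (J m f)) :=
    (hE.const_mul _).sub (hM.const_mul _)
  have hle : J m f ≤ sInf S := by
    have h1 : Tendsto (fun n => sInf S + 1 / (((ψ n : ℕ):ℝ) + 1)) atTop (𝓝 (sInf S + 0)) :=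
      tendsto_const_nhds.add ((tendsto_one_div_add_atTop_nhds_zero_nat (𝕜 := ℝ)).comp
        hψ.tendsto_atTop)
    rw [add_zero] at h1
    exact le_of_tendsto_of_tendsto' hJ h1 fun n => (hgJ (ψ n)).le
  exact ⟨f, hfA, fun g' hg' => hle.trans (csInf_le hbdd ⟨g', hg', rfl⟩)⟩

/-- the variational inequality -/
lemma var_ineq (hR : 0 < R) (hU : U ⊆ Metric.ball 0 R) {m : ℝ} {f : E3 → ℝ} (hf : Adm U f)
    (hmin : ∀ g, Adm U g → J m f ≤ J m g) {g : E3 → ℝ} (hg : Adm U g) :
    0 ≤ ∫ x, (g x - f x) * (V f x - m) := by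
  have hfG := hf.good hU
  have hdG := hf.sub_good hg hU
  set d : E3 → ℝ := fun y => g y - f y with hd
  set A : ℝ := ∫ x, (g x - f x) * (V f x - m) with hA
  set B : ℝ := ∫ x, d x * V d x with hB
  have hAd : A = (∫ x, d x * V f x) - m * ∫ x, d x := by
    have s1 : ∫ x, (d x * V f x - m * d x) = (∫ x, d x * V f x) - ∫ x, m * d x :=
      integral_sub (Good.int_mul_V hR hdG hfG) ((hdG.integrable hR).const_mul m)
    rw [← integral_const_mul, ← s1, hA]
    refine integral_congr_ae (ae_of_all _ fun x => ?_)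
    simp only [hd]
    ring
  have key : ∀ t : ℝ, 0 < t → t ≤ 1 → 0 ≤ A + t * (B / 2) := by
    intro t ht ht1
    have hgt : Adm U (fun y => f y + t * d y) := by
      have e : ∀ y, f y + t * d y = (1 - t) * f y + t * g y := fun y => by simp only [hd]; ring
      refine ⟨?_, fun y => ?_, fun y => ?_, fun y hy => ?_⟩
      · have := hf.meas; have := hg.meas
        simp only [hd]
        fun_prop
      · rw [e]
        have := hf.nonneg y
        have := hg.nonneg y
        have : 0 ≤ 1 - t := by linarith
        positivity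
      · rw [e]
        have h1 := mul_le_mul_of_nonneg_left (hf.le_one y) (by linarith : 0 ≤ 1 - t)
        have h2 := mul_le_mul_of_nonneg_left (hg.le_one y) ht.le
        linarith
      · rw [e, hf.supp y hy, hg.supp y hy]; simp
    have h1 := hmin _ hgt
    have hV : ∀ x, V (fun y => f y + t * d y) x = V f x + t * V d x := by
      intro x
      unfold V
      rw [← integral_const_mul, ← integral_add (hfG.int_kern hR x) ((hdG.int_kern hR x).const_mul t)]
      congr 1
      ext y
      ring
    unfold J at h1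
    simp_rw [hV] at h1
    have e1 : ∫ x, (f x + t * d x) * (V f x + t * V d x) =
        (∫ x, f x * V f x) + 2 * t * (∫ x, d x * V f x) + t ^ 2 * B := by
      have i1 := Good.int_mul_V hR hfG hfG
      have i2 := Good.int_mul_V hR hdG hfG
      have i3 := Good.int_mul_V hR hfG hdG
      have i4 := Good.int_mul_V hR hdG hdG
      have hs := Good.symmV hR hfG hdG
      calc ∫ x, (f x + t * d x) * (V f x + t * V d x)
          = ∫ x, ((f x * V f x + t * (d x * V f x)) + (t * (f x * V d x) + t ^ 2 * (d x * V d x))) := by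
            congr 1; ext x; ring
        _ = _ := by
            have s1 : ∫ x, ((f x * V f x + t * (d x * V f x)) +
                (t * (f x * V d x) + t ^ 2 * (d x * V d x))) =
                (∫ x, (f x * V f x + t * (d x * V f x))) +
                  ∫ x, (t * (f x * V d x) + t ^ 2 * (d x * V d x)) :=
              integral_add (i1.add (i2.const_mul t)) ((i3.const_mul t).add (i4.const_mul (t ^ 2)))
            have s2 : ∫ x, (f x * V f x + t * (d x * V f x)) =
                (∫ x, f x * V f x) + ∫ x, t * (d x * V f x) := integral_add i1 (i2.const_mul t)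
            have s3 : ∫ x, (t * (f x * V d x) + t ^ 2 * (d x * V d x)) =
                (∫ x, t * (f x * V d x)) + ∫ x, t ^ 2 * (d x * V d x) :=
              integral_add (i3.const_mul t) (i4.const_mul (t ^ 2))
            rw [s1, s2, s3, integral_const_mul, integral_const_mul, integral_const_mul, hs]
            ring
    have e2 : ∫ x, (f x + t * d x) = (∫ x, f x) + t * ∫ x, d x := by
      have s1 : ∫ x, (f x + t * d x) = (∫ x, f x) + ∫ x, t * d x :=
        integral_add (hfG.integrable hR) ((hdG.integrable hR).const_mul t)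
      rw [s1, integral_const_mul]
    rw [e1, e2] at h1
    have h2 : 0 ≤ t * (A + t * (B / 2)) := by
      rw [hAd]
      nlinarith
    exact nonneg_of_mul_nonneg_right h2 ht
  have hlim : Tendsto (fun n : ℕ => A + (1 / ((n:ℝ) + 1)) * (B / 2)) atTop (𝓝 (A + 0 * (B / 2))) :=
    tendsto_const_nhds.add ((tendsto_one_div_add_atTop_nhds_zero_nat (𝕜 := ℝ)).mul_const _)
  rw [zero_mul, add_zero] at hlim
  refine ge_of_tendsto' hlim fun n => key _ (by positivity) ?_
  rw [div_le_one (by positivity)]
  have : (0:ℝ) ≤ n := Nat.cast_nonneg n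
  linarith

/-- the complementarity conditions -/
theorem exists_dens (hR : 0 < R) (hU : U ⊆ Metric.ball 0 R) (hUm : MeasurableSet U) {m : ℝ}
    (hm : 0 < m) : ∃ f, Adm U f ∧ (∀ᵐ x, x ∈ U → V f x < m → f x = 1) ∧
      (∀ᵐ x, x ∈ U → m < V f x → f x = 0) := by
  classical
  obtain ⟨f, hf, hmin⟩ := exists_min hR hU hUm hm
  have hfG := hf.good hU
  have hVc := hfG.V_cont hR
  have hint : Integrable fun x => (f x) * (V f x - m) := by
    have e : (fun x => f x * (V f x - m)) = fun x => f x * V f x - f x * m := by ext x; ring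
    rw [e]
    exact (Good.int_mul_V hR hfG hfG).sub ((hfG.integrable hR).mul_const m)
  have key : ∀ (A : Set E3) (c : ℝ), MeasurableSet A → A ⊆ U → 0 ≤ c → c ≤ 1 →
      (∀ x ∈ A, (c - f x) * (V f x - m) ≤ 0) → ∀ᵐ x, x ∈ A → (c - f x) * (V f x - m) = 0 := by
    intro A c hAm hAU hc0 hc1 hA
    set g : E3 → ℝ := A.piecewise (fun _ => c) f with hg
    have hgA : Adm U g := by
      refine ⟨Measurable.piecewise hAm measurable_const hf.meas, fun x => ?_, fun x => ?_,
        fun x hx => ?_⟩
      · by_cases hx : x ∈ A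
        · rw [hg, piecewise_eq_of_mem _ _ _ hx]; exact hc0
        · rw [hg, piecewise_eq_of_notMem _ _ _ hx]; exact hf.nonneg x
      · by_cases hx : x ∈ A
        · rw [hg, piecewise_eq_of_mem _ _ _ hx]; exact hc1
        · rw [hg, piecewise_eq_of_notMem _ _ _ hx]; exact hf.le_one x
      · rw [hg, piecewise_eq_of_notMem _ _ _ (fun h => hx (hAU h))]; exact hf.supp x hx
    have h1 := var_ineq hR hU hf hmin hgA
    have hp : ∀ x, (g x - f x) * (V f x - m) ≤ 0 := by
      intro x
      by_cases hx : x ∈ A
      · rw [hg, piecewise_eq_of_mem _ _ _ hx]; exact hA x hx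
      · rw [hg, piecewise_eq_of_notMem _ _ _ hx]; simp
    have hdG := hf.sub_good hgA hU
    have hi : Integrable fun x => (g x - f x) * (V f x - m) := by
      have e : (fun x => (g x - f x) * (V f x - m)) =
          fun x => (g x - f x) * V f x - (g x - f x) * m := by ext x; ring
      rw [e]
      exact (Good.int_mul_V hR hdG hfG).sub ((hdG.integrable hR).mul_const m)
    have h2 : ∫ x, -((g x - f x) * (V f x - m)) = 0 := by
      rw [integral_neg]
      have : ∫ x, (g x - f x) * (V f x - m) ≤ 0 := integral_nonpos fun x => hp x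
      linarith
    have h3 := (integral_eq_zero_iff_of_nonneg (μ := volume)
      (f := fun x => -((g x - f x) * (V f x - m))) (fun x => by simpa using hp x) hi.neg).1 h2
    filter_upwards [h3] with x hx hxA
    simp only [Pi.zero_apply, neg_eq_zero] at hx
    rw [hg, piecewise_eq_of_mem _ _ _ hxA] at hx
    exact hx
  refine ⟨f, hf, ?_, ?_⟩
  · have h1 := key (U ∩ {x | V f x < m}) 1 (hUm.inter (measurableSet_lt hVc.measurable
      measurable_const)) inter_subset_left zero_le_one le_rfl (fun x hx => by
        have h2 : V f x < m := hx.2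
        nlinarith [hf.le_one x])
    filter_upwards [h1] with x hx hxU hxm
    have h2 := hx ⟨hxU, hxm⟩
    rcases mul_eq_zero.1 h2 with h | h
    · linarith
    · linarith
  · have h1 := key (U ∩ {x | m < V f x}) 0 (hUm.inter (measurableSet_lt measurable_const
      hVc.measurable)) inter_subset_left le_rfl zero_le_one (fun x hx => by
        have h2 : m < V f x := hx.2
        nlinarith [hf.nonneg x])
    filter_upwards [h1] with x hx hxU hxm
    have h2 := hx ⟨hxU, hxm⟩
    rcases mul_eq_zero.1 h2 with h | h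
    · linarith
    · linarith

end Pool.Agent.E8helper16.Shell
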