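import Pool.Agent.E8helper16.Shell.Obst

set_option autoImplicit false

/-!
# Monotonicity of the potential of the obstacle density of the cube
-/

open MeasureTheory Set Filter Topology
open scoped ENNReal

namespace Pool.Agent.E8helper16.Shell

open Pool.Agent.H283R3.Newt

/-- the open cube of side `2` -/
def cube : Set E3 := {x | ∀ i, |x i| < 1}

lemma cube_sub : cube ⊆ Metric.ball (0:E3) 2 := by
  intro x hx
  rw [mem_ball_zero_iff, ← sq_lt_sq₀ (norm_nonneg x) (by norm_num : (0:ℝ) ≤ 2),
    EuclideanSpace.norm_sq_eq, Fin.sum_univ_three]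
  have h : ∀ i, ‖x i‖ ^ 2 < 1 := by
    intro i
    have := hx i
    rw [Real.norm_eq_abs]
    have h0 := abs_nonneg (x i)
    nlinarith
  have := h 0
  have := h 1
  have := h 2
  linarith

lemma cube_open : IsOpen cube := by
  have : cube = ⋂ i : Fin 3, {x : E3 | |x i| < 1} := by ext x; simp [cube]
  rw [this]
  exact isOpen_iInter_of_finite fun i => isOpen_lt (by fun_prop) continuous_const

/-- the reflection in the hyperplane `x i = t` -/
noncomputable def sig (i : Fin 3) (t : ℝ) : E3 ≃ᵢ E3 :=
  (LinearIsometryEquiv.piLpCongrRight 2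
    (fun j : Fin 3 => if j = i then LinearIsometryEquiv.neg ℝ (E := ℝ)
      else LinearIsometryEquiv.refl ℝ ℝ)).toIsometryEquiv.trans
    (IsometryEquiv.addRight (EuclideanSpace.single i (2 * t)))

lemma sig_apply (i : Fin 3) (t : ℝ) (x : E3) (j : Fin 3) :
    (sig i t x) j = if j = i then 2 * t - x i else x j := by
  unfold sig
  by_cases h : j = i
  · subst h
    simp [LinearIsometryEquiv.piLpCongrRight_apply]
    ring
  · simp [LinearIsometryEquiv.piLpCongrRight_apply, h]

lemma sig_same (i : Fin 3) (t : ℝ) (x : E3) : (sig i t x) i = 2 * t - x i := by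
  rw [sig_apply, if_pos rfl]

lemma sig_ne {i j : Fin 3} (h : j ≠ i) (t : ℝ) (x : E3) : (sig i t x) j = x j := by
  rw [sig_apply, if_neg h]

lemma sig_sig (i : Fin 3) (t : ℝ) (x : E3) : sig i t (sig i t x) = x := by
  ext j
  by_cases h : j = i
  · subst h
    rw [sig_same, sig_same]; ring
  · rw [sig_ne h, sig_ne h]

lemma sig_mp (i : Fin 3) (t : ℝ) : MeasurePreserving (sig i t) volume volume := by
  have h1 := (LinearIsometryEquiv.piLpCongrRight 2
    (fun j : Fin 3 => if j = i then LinearIsometryEquiv.neg ℝ (E := ℝ)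
      else LinearIsometryEquiv.refl ℝ ℝ)).measurePreserving
  have h2 := measurePreserving_add_right (volume : Measure E3) (EuclideanSpace.single i (2 * t))
  exact h2.comp h1

lemma sig_norm_le (i : Fin 3) {t : ℝ} (ht : 0 ≤ t) (x : E3) : ‖sig i t x‖ ≤ ‖x‖ + 2 * t := by
  have h1 : dist (sig i t x) (sig i t 0) = dist x 0 := (sig i t).dist_eq x 0
  have h2 : sig i t 0 = EuclideanSpace.single i (2 * t) := by
    ext j
    by_cases h : j = i
    · subst h; rw [sig_same]; simp
    · rw [sig_ne h]; simp [h]
  have h3 : ‖sig i t x‖ ≤ dist (sig i t x) (sig i t 0) + ‖sig i t 0‖ := by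
    rw [dist_eq_norm]
    have := norm_add_le (sig i t x - sig i t 0) (sig i t 0)
    rwa [sub_add_cancel] at this
  have h4 : ‖sig i t 0‖ = 2 * t := by
    rw [h2, PiLp.norm_single, Real.norm_eq_abs, abs_of_nonneg (by linarith)]
  rw [h1, h4, dist_zero_right] at h3
  exact h3

lemma V_comp (σ : E3 ≃ᵢ E3) (hmp : MeasurePreserving σ volume volume) (f : E3 → ℝ) (x : E3) :
    V (fun y => f (σ y)) x = V f (σ x) := by
  unfold V
  have h := hmp.integral_comp σ.toHomeomorph.measurableEmbedding (fun z => f z * (dist (σ x) z)⁻¹)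
  rw [← h]
  congr 1
  ext y
  rw [σ.dist_eq]

/-- the comparison lemma -/
theorem compare {U : Set E3} {R m : ℝ} (hR : 0 < R) (hU : U ⊆ Metric.ball 0 R)
    {f : E3 → ℝ} (hf : Adm U f) (hle : ∀ x, V f x ≤ m)
    (h1 : ∀ᵐ x, x ∈ U → V f x < m → f x = 1)
    (σ : E3 ≃ᵢ E3) (hmp : MeasurePreserving σ volume volume)
    (_hσ : ∀ x, σ (σ x) = x) {H : Set E3} (hH : IsOpen H) (hfix : ∀ x ∈ frontier H, σ x = x)
    (hHU : ∀ x ∈ H, σ x ∈ U → x ∈ U) (hball : ∀ x, σ x ∈ U → x ∈ Metric.ball (0:E3) R) :
    ∀ x ∈ H, V f (σ x) ≤ V f x := by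
  have hfG := hf.good hU
  have hfA : Adm (Metric.ball (0:E3) R) f := ⟨hf.meas, hf.nonneg, hf.le_one,
    fun x hx => hf.supp x (fun h => hx (hU h))⟩
  have hfσ : Adm (Metric.ball (0:E3) R) (fun y => f (σ y)) :=
    ⟨hf.meas.comp σ.continuous.measurable, fun x => hf.nonneg _, fun x => hf.le_one _,
      fun x hx => hf.supp _ (fun h => hx (hball x h))⟩
  have hσG := hfσ.good subset_rfl
  have hdG := hfA.sub_good hfσ subset_rfl
  have hVσ : ∀ x, V (fun y => f (σ y)) x = V f (σ x) := fun x => V_comp σ hmp f x
  have hVd : ∀ x, V (fun y => f (σ y) - f y) x = V f (σ x) - V f x := fun x => by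
    rw [← hVσ x]
    exact V_sub hR hfG hσG x
  have hc := hfG.V_cont hR
  have hwc : Continuous fun x => V f (σ x) - V f x := (hc.comp σ.continuous).sub hc
  have key := max_principle (w := fun x => V f (σ x) - V f x) hwc
    (by
      intro δ hδ
      obtain ⟨ρ, hρ⟩ := hdG.V_small hR hδ
      refine ⟨ρ, fun x hx => ?_⟩
      have := hρ x hx
      rw [hVd, abs_lt] at this
      exact this.2)
    hH (by
      intro x hx
      show V f (σ x) - V f x ≤ 0
      rw [hfix x hx, sub_self]) (by
      intro x hx hpos
      have hop : IsOpen (H ∩ {y | V f y < V f (σ y)}) :=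
        hH.inter (isOpen_lt hc (hc.comp σ.continuous))
      have hxm : x ∈ H ∩ {y | V f y < V f (σ y)} := ⟨hx, by
        show V f x < V f (σ x)
        have : 0 < V f (σ x) - V f x := hpos
        linarith⟩
      obtain ⟨r, hr, hsub⟩ := Metric.isOpen_iff.1 hop x hxm
      refine ⟨r, hr, hsub.trans inter_subset_left, ?_⟩
      have h2 := sub_mean hR hdG hr (x := x) (by
        filter_upwards [h1] with y hy hyb
        have hy2 := hsub hyb
        by_cases hyU : y ∈ U
        · have h3 : V f y < V f (σ y) := hy2.2
          have h4 := hy hyU (lt_of_lt_of_le h3 (hle _))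
          have := hf.le_one (σ y)
          linarith
        · have h3 : σ y ∉ U := fun h => hyU (hHU y hy2.1 h)
          rw [hf.supp _ h3, hf.supp _ hyU, sub_zero])
      simp_rw [hVd] at h2
      exact h2)
  intro x hx
  have := key x hx
  linarith

/-- coordinatewise monotonicity of the potential of the obstacle density of the cube -/
theorem V_coord {m : ℝ} {f : E3 → ℝ} (hf : Adm cube f) (hle : ∀ x, V f x ≤ m)
    (h1 : ∀ᵐ x, x ∈ cube → V f x < m → f x = 1) (i : Fin 3) {x y : E3}
    (hxy : ∀ j, j ≠ i → x j = y j) (hi : |x i| ≤ |y i|) : V f y ≤ V f x := by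
  have hU4 : ∀ t : ℝ, 0 ≤ t → cube ⊆ Metric.ball (0:E3) (2 + 2 * t) := fun t ht =>
    cube_sub.trans (Metric.ball_subset_ball (by linarith))
  have hball : ∀ t : ℝ, 0 ≤ t → ∀ x, sig i t x ∈ cube → x ∈ Metric.ball (0:E3) (2 + 2 * t) := by
    intro t ht x hx
    have h2 := cube_sub hx
    rw [mem_ball_zero_iff] at h2 ⊢
    have h3 := sig_norm_le i ht (sig i t x)
    rw [sig_sig] at h3
    linarith
  have hcoord : Continuous fun x : E3 => x i := by fun_prop
  -- symmetry
  have hsym0 : ∀ H : Set E3, IsOpen H → (∀ x ∈ frontier H, x i = 0) → ∀ x ∈ H,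
      V f (sig i 0 x) ≤ V f x := by
    intro H hH hfr
    refine compare (by norm_num) (hU4 0 le_rfl) hf hle h1 (sig i 0) (sig_mp i 0) (sig_sig i 0) hH
      ?_ ?_ (hball 0 le_rfl)
    · intro x hx
      ext j
      by_cases h : j = i
      · subst h; rw [sig_same, hfr x hx]; ring
      · rw [sig_ne h]
    · intro x _ hx j
      by_cases h : j = i
      · subst h
        have := hx j
        rw [sig_same] at this
        simpa using this
      · have := hx j
        rw [sig_ne h] at this
        exact this
  have hneg : ∀ x : E3, x i < 0 → V f (sig i 0 x) ≤ V f x := by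
    refine hsym0 {x | x i < 0} (isOpen_lt hcoord continuous_const) ?_
    intro x hx
    exact frontier_lt_subset_eq hcoord continuous_const hx
  have hposi : ∀ x : E3, 0 < x i → V f (sig i 0 x) ≤ V f x := by
    refine hsym0 {x | 0 < x i} (isOpen_lt continuous_const hcoord) ?_
    intro x hx
    exact (frontier_lt_subset_eq continuous_const hcoord hx).symm
  have hsym : ∀ x : E3, V f (sig i 0 x) = V f x := by
    intro x
    rcases lt_trichotomy (x i) 0 with h | h | h
    · refine le_antisymm (hneg x h) ?_
      have := hposi (sig i 0 x) (by rw [sig_same]; linarith)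
      rwa [sig_sig] at this
    · have : sig i 0 x = x := by
        ext j
        by_cases hj : j = i
        · subst hj; rw [sig_same, h]; ring
        · rw [sig_ne hj]
      rw [this]
    · refine le_antisymm (hposi x h) ?_
      have := hneg (sig i 0 x) (by rw [sig_same]; linarith)
      rwa [sig_sig] at this
  -- the case of nonnegative coordinates
  have key : ∀ x y : E3, (∀ j, j ≠ i → x j = y j) → 0 ≤ x i → x i ≤ y i → V f y ≤ V f x := by
    intro x y hxy h0 hle'
    rcases hle'.eq_or_lt with h | h
    · have : x = y := by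
        ext j
        by_cases hj : j = i
        · subst hj; exact h
        · exact hxy j hj
      rw [this]
    · set t := (x i + y i) / 2 with ht
      have htpos : 0 < t := by rw [ht]; linarith
      have h2 := compare (by linarith) (hU4 t htpos.le) hf hle h1 (sig i t) (sig_mp i t)
        (sig_sig i t)
        (H := {x | x i < t}) (isOpen_lt hcoord continuous_const) (by
          intro z hz
          have hz2 : z i = t := frontier_lt_subset_eq hcoord continuous_const hz
          ext j
          by_cases hj : j = i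
          · subst hj; rw [sig_same, hz2]; ring
          · rw [sig_ne hj]) (by
          intro z hz hzU j
          have hzt : z i < t := hz
          by_cases hj : j = i
          · subst hj
            have := hzU j
            rw [sig_same, abs_lt] at this
            rw [abs_lt]
            constructor <;> linarith [this.1, this.2]
          · have := hzU j
            rwa [sig_ne hj] at this) (hball t htpos.le) x (by
          show x i < t
          rw [ht]; linarith)
      have h3 : sig i t x = y := by
        ext j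
        by_cases hj : j = i
        · subst hj; rw [sig_same, ht]; ring
        · rw [sig_ne hj, hxy j hj]
      rwa [h3] at h2
  -- reduction to nonnegative coordinates
  have habs : ∀ x : E3, ∃ x' : E3, (∀ j, j ≠ i → x' j = x j) ∧ x' i = |x i| ∧ V f x' = V f x := by
    intro x
    rcases le_total 0 (x i) with h | h
    · exact ⟨x, fun _ _ => rfl, (abs_of_nonneg h).symm, rfl⟩
    · refine ⟨sig i 0 x, fun j hj => sig_ne hj 0 x, ?_, hsym x⟩
      rw [sig_same, abs_of_nonpos h]; ring
  obtain ⟨x', hx1, hx2, hx3⟩ := habs x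
  obtain ⟨y', hy1', hy2, hy3⟩ := habs y
  rw [← hx3, ← hy3]
  refine key x' y' (fun j hj => ?_) ?_ ?_
  · rw [hx1 j hj, hy1' j hj, hxy j hj]
  · rw [hx2]; exact abs_nonneg _
  · rw [hx2, hy2]; exact hi

end Pool.Agent.E8helper16.Shell
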