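import Pool.Agent.E8helper16.Shell.Min

set_option autoImplicit false

/-!
# The maximum principle and the contact set
-/

open MeasureTheory Set Filter Topology
open scoped ENNReal

namespace Pool.Agent.E8helper16.Shell

open Pool.Agent.H283R3.Newt

variable {U : Set E3} {R : ℝ}

/-- super mean value property of the potential of a density which is nonnegative on the ball -/
lemma super_mean (hR : 0 < R) {g : E3 → ℝ} (hg : Good R g) {x : E3} {r : ℝ} (hr : 0 < r)
    (h : ∀ᵐ y, y ∈ Metric.ball x r → 0 ≤ g y) : (∫ z in Metric.ball x r, V g z) ≤ V g x * vb r := by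
  have h1 := hg.mean_diff hR hr x
  have h2 : 0 ≤ ∫ y, g y * kr r (dist x y) := by
    have hne : ∀ᵐ y : E3, y ≠ x := by simp [ae_iff]
    refine integral_nonneg_of_ae ?_
    filter_upwards [h, hne] with y hy hyx
    have hd : 0 < dist x y := dist_pos.2 hyx.symm
    simp only [Pi.zero_apply]
    rcases lt_or_ge (dist x y) r with h3 | h3
    · exact mul_nonneg (hy (by rw [Metric.mem_ball, dist_comm]; exact h3)) (kr_nonneg hr hd)
    · rw [kr_zero hr h3, mul_zero]
  rw [← h1] at h2
  have h3 := vb_pos hr
  rw [sub_nonneg, div_le_iff₀ h3] at h2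
  exact h2

lemma sub_mean (hR : 0 < R) {g : E3 → ℝ} (hg : Good R g) {x : E3} {r : ℝ} (hr : 0 < r)
    (h : ∀ᵐ y, y ∈ Metric.ball x r → g y ≤ 0) : V g x * vb r ≤ ∫ z in Metric.ball x r, V g z := by
  have hneg : Good R (fun y => - g y) := ⟨hg.meas.neg, fun y => by rw [abs_neg]; exact hg.bd y⟩
  have h1 := super_mean hR hneg hr (x := x) (by
    filter_upwards [h] with y hy hy'
    have := hy hy'
    linarith)
  have h2 : ∀ z, V (fun y => - g y) z = - V g z := by
    intro z
    unfold V
    rw [← integral_neg]
    congr 1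
    ext y
    ring
  simp_rw [h2] at h1
  rw [integral_neg] at h1
  linarith

/-- a maximum principle -/
theorem max_principle {w : E3 → ℝ} (hw : Continuous w)
    (hinf : ∀ δ > 0, ∃ ρ : ℝ, ∀ x : E3, ρ ≤ ‖x‖ → w x < δ) {H : Set E3} (hH : IsOpen H)
    (hfr : ∀ x ∈ frontier H, w x ≤ 0)
    (hsub : ∀ x ∈ H, 0 < w x → ∃ r > 0, Metric.ball x r ⊆ H ∧
      w x * vb r ≤ ∫ z in Metric.ball x r, w z) : ∀ x ∈ H, w x ≤ 0 := by
  by_contra hcon
  push Not at hcon
  obtain ⟨x1, hx1, ha⟩ := hcon
  set a := w x1 with hadef
  set A : Set E3 := closure H ∩ {x | a ≤ w x} with hA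
  obtain ⟨ρ, hρ⟩ := hinf a ha
  have hAc : IsCompact A := by
    apply Metric.isCompact_of_isClosed_isBounded
    · exact isClosed_closure.inter (isClosed_le continuous_const hw)
    · apply (Metric.isBounded_ball (x := (0:E3)) (r := ρ)).subset
      rintro x ⟨-, hx⟩
      rw [mem_ball_zero_iff]
      by_contra hc
      push Not at hc
      have := hρ x hc
      have h2 : a ≤ w x := hx
      linarith
  obtain ⟨x2, hx2, hmax⟩ := hAc.exists_isMaxOn ⟨x1, subset_closure hx1, le_refl a⟩ hw.continuousOn
  set M := w x2 with hM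
  have haM : a ≤ M := hx2.2
  have hMax : ∀ x ∈ closure H, w x ≤ M := by
    intro x hx
    by_cases h : a ≤ w x
    · exact hmax ⟨hx, h⟩
    · push Not at h
      linarith
  set B : Set E3 := closure H ∩ {x | M ≤ w x} with hB
  have hBc : IsCompact B := by
    refine hAc.of_isClosed_subset (isClosed_closure.inter (isClosed_le continuous_const hw)) ?_
    rintro x ⟨hx, hx'⟩
    exact ⟨hx, haM.trans hx'⟩
  have hcoord : Continuous fun x : E3 => x 0 := by fun_prop
  obtain ⟨x0, hx0, hx0max⟩ := hBc.exists_isMaxOn ⟨x2, hx2.1, le_refl M⟩ hcoord.continuousOn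
  have hMpos : 0 < M := lt_of_lt_of_le ha haM
  have hwx0 : w x0 = M := le_antisymm (hMax x0 hx0.1) hx0.2
  have hx0H : x0 ∈ H := by
    by_contra h
    have h1 : x0 ∈ frontier H := by
      rw [hH.frontier_eq]
      exact ⟨hx0.1, h⟩
    have := hfr x0 h1
    linarith
  obtain ⟨r, hr, hrH, hmean⟩ := hsub x0 hx0H (by rw [hwx0]; exact hMpos)
  have hvol : (volume.restrict (Metric.ball x0 r)).real univ = vb r := by
    rw [measureReal_def, Measure.restrict_apply_univ, vol_ball hr,
      ENNReal.toReal_ofReal (vb_pos hr).le]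
  have hfin : IsFiniteMeasure (volume.restrict (Metric.ball x0 r)) :=
    ⟨by rw [Measure.restrict_apply_univ]; exact measure_ball_lt_top⟩
  have hwi : IntegrableOn w (Metric.ball x0 r) := by
    refine IntegrableOn.mono_set (t := Metric.closedBall x0 r) ?_ Metric.ball_subset_closedBall
    exact hw.continuousOn.integrableOn_compact (isCompact_closedBall x0 r)
  have h0 : ∫ z in Metric.ball x0 r, (M - w z) = 0 := by
    refine le_antisymm ?_ ?_
    · rw [integral_sub (integrable_const _) hwi, integral_const, hvol, smul_eq_mul]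
      rw [hwx0] at hmean
      linarith
    · refine setIntegral_nonneg Metric.isOpen_ball.measurableSet fun z hz => ?_
      have := hMax z (subset_closure (hrH hz))
      linarith
  rw [setIntegral_eq_zero_iff_of_nonneg_ae] at h0
  · have h1 := Measure.eqOn_open_of_ae_eq h0 Metric.isOpen_ball
      (continuous_const.sub hw).continuousOn continuousOn_const
    set y : E3 := x0 + EuclideanSpace.single (0:Fin 3) (r / 2) with hy
    have hyb : y ∈ Metric.ball x0 r := by
      rw [Metric.mem_ball, dist_eq_norm, hy, add_sub_cancel_left, EuclideanSpace.norm_single,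
        Real.norm_eq_abs, abs_of_pos (by linarith)]
      linarith
    have h2 := h1 hyb
    simp only [Pi.zero_apply] at h2
    have h3 : y ∈ B := ⟨subset_closure (hrH hyb), by rw [mem_setOf_eq]; linarith⟩
    have h4 := hx0max h3
    simp only [mem_setOf_eq, hy, PiLp.add_apply, EuclideanSpace.single_apply, if_true] at h4
    linarith
  · rw [Filter.EventuallyLE, ae_restrict_iff' Metric.isOpen_ball.measurableSet]
    refine ae_of_all _ fun z hz => ?_
    simp only [Pi.zero_apply]
    have := hMax z (subset_closure (hrH hz))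
    linarith
  · exact (integrable_const _).sub hwi

/-- the potential of an obstacle density is at most `m` -/
theorem V_le {m : ℝ} (hR : 0 < R) (hU : U ⊆ Metric.ball 0 R) (hm : 0 < m) {f : E3 → ℝ}
    (hf : Adm U f) (h0 : ∀ᵐ x, x ∈ U → m < V f x → f x = 0) (x : E3) : V f x ≤ m := by
  have hfG := hf.good hU
  have hc := hfG.V_cont hR
  have key := max_principle (w := fun x => V f x - m) (hc.sub continuous_const) (H := univ)
    (by
      intro δ hδ
      obtain ⟨ρ, hρ⟩ := hfG.V_small hR hδ
      refine ⟨ρ, fun x hx => ?_⟩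
      have := hρ x hx
      rw [abs_lt] at this
      linarith [this.2])
    isOpen_univ (by simp) (by
      intro x _ hx
      have hop : IsOpen {y | m < V f y} := isOpen_lt continuous_const hc
      have hxm : x ∈ {y | m < V f y} := by
        rw [mem_setOf_eq]; linarith
      obtain ⟨r, hr, hsub⟩ := Metric.isOpen_iff.1 hop x hxm
      refine ⟨r, hr, subset_univ _, ?_⟩
      have h1 := sub_mean hR hfG hr (x := x) (by
        filter_upwards [h0] with y hy hyb
        by_cases hyU : y ∈ U
        · exact (hy hyU (hsub hyb)).le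
        · exact (hf.supp y hyU).le)
      have hvol : (volume.restrict (Metric.ball x r)).real univ = vb r := by
        rw [measureReal_def, Measure.restrict_apply_univ, vol_ball hr,
          ENNReal.toReal_ofReal (vb_pos hr).le]
      have hfin : IsFiniteMeasure (volume.restrict (Metric.ball x r)) :=
        ⟨by rw [Measure.restrict_apply_univ]; exact measure_ball_lt_top⟩
      have hwi : IntegrableOn (V f) (Metric.ball x r) := by
        refine IntegrableOn.mono_set (t := Metric.closedBall x r) ?_ Metric.ball_subset_closedBall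
        exact hc.continuousOn.integrableOn_compact (isCompact_closedBall x r)
      rw [integral_sub hwi (integrable_const _), integral_const, hvol, smul_eq_mul]
      linarith)
  have := key x (mem_univ x)
  linarith

lemma avg_eq {g : E3 → ℝ} {x : E3} {r : ℝ} (hr : 0 < r) :
    ⨍ y in Metric.closedBall x r, g y = (∫ y in Metric.ball x r, g y) / vb r := by
  have hae : (Metric.ball x r : Set E3) =ᵐ[volume] Metric.closedBall x r := by
    rw [← Metric.ball_union_sphere]
    have h0 : volume (Metric.sphere x r) = 0 := Measure.addHaar_sphere _ _ _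
    exact (union_ae_eq_left_of_ae_eq_empty (ae_eq_empty.2 h0)).symm
  rw [setAverage_eq, setIntegral_congr_set hae.symm, measureReal_def, ← measure_congr hae, vol_ball hr,
    ENNReal.toReal_ofReal (vb_pos hr).le, smul_eq_mul, inv_mul_eq_div]

lemma kr_le {r ζ : ℝ} (hr : 0 < r) (hζ : 0 ≤ ζ) : kr r ζ ≤ ζ⁻¹ := by
  unfold kr
  have := div_nonneg (Nn_nonneg hr hζ) (vb_pos hr).le
  linarith

lemma kr_ge {r ζ : ℝ} (hr : 0 < r) (hζ : 0 < ζ) (h : ζ ≤ r / 2) : 5 / (8 * r) ≤ kr r ζ := by
  have hpi := Real.pi_pos
  have hlt : ζ < r := by linarith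
  rw [kr, Nn, if_pos hlt, vb]
  have h1 : 2 * Real.pi * (r ^ 2 - ζ ^ 2 / 3) / (4 * Real.pi / 3 * r ^ 3) =
      (3 * r ^ 2 - ζ ^ 2) / (2 * r ^ 3) := by
    field_simp
    ring
  rw [h1]
  have h2 : ζ⁻¹ - (3 * r ^ 2 - ζ ^ 2) / (2 * r ^ 3) - 5 / (8 * r) =
      (8 * r ^ 3 - 4 * ζ * (3 * r ^ 2 - ζ ^ 2) - 5 * ζ * r ^ 2) / (8 * ζ * r ^ 3) := by
    field_simp
    ring
  have h3 : 0 ≤ (8 * r ^ 3 - 4 * ζ * (3 * r ^ 2 - ζ ^ 2) - 5 * ζ * r ^ 2) / (8 * ζ * r ^ 3) := by
    apply div_nonneg _ (by positivity)
    -- 8 r³ - 17 ζ r² + 4 ζ³ = (r - 2ζ)(8 r² - ζ r - 2 ζ²)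
    have e : 8 * r ^ 3 - 4 * ζ * (3 * r ^ 2 - ζ ^ 2) - 5 * ζ * r ^ 2 =
        (r - 2 * ζ) * (8 * r ^ 2 - ζ * r - 2 * ζ ^ 2) := by ring
    rw [e]
    apply mul_nonneg (by linarith)
    nlinarith
  linarith

/-- the density vanishes almost everywhere on the contact set -/
theorem contact_zero {m : ℝ} (hR : 0 < R) (hU : U ⊆ Metric.ball 0 R) {f : E3 → ℝ}
    (hf : Adm U f) (hle : ∀ x, V f x ≤ m) : ∀ᵐ x, V f x = m → f x = 0 := by
  have hpi := Real.pi_pos
  have hfG := hf.good hU
  have hc := hfG.V_cont hR
  set K : Set E3 := {x | V f x = m} with hK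
  have hKc : IsClosed K := isClosed_eq hc continuous_const
  set k : E3 → ℝ := Kᶜ.indicator (fun _ => (1:ℝ)) with hk
  have hkl : LocallyIntegrable k := by
    refine (locallyIntegrable_const (1:ℝ)).indicator hKc.measurableSet.compl
  have hfl : LocallyIntegrable f := (hfG.integrable hR).locallyIntegrable
  have a1 := (Besicovitch.vitaliFamily (volume : Measure E3)).ae_tendsto_average hfl
  have a2 := (Besicovitch.vitaliFamily (volume : Measure E3)).ae_tendsto_average hkl
  -- the integral of `V f` on balls
  have hint : ∀ (x : E3) (r : ℝ), IntegrableOn (V f) (Metric.ball x r) := by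
    intro x r
    refine IntegrableOn.mono_set (t := Metric.closedBall x r) ?_ Metric.ball_subset_closedBall
    exact hc.continuousOn.integrableOn_compact (isCompact_closedBall x r)
  have hfinb : ∀ (x : E3) (r : ℝ), IsFiniteMeasure (volume.restrict (Metric.ball x r)) := fun x r =>
    ⟨by rw [Measure.restrict_apply_univ]; exact measure_ball_lt_top⟩
  have hvolb : ∀ (x : E3) {r : ℝ}, 0 < r → (volume.restrict (Metric.ball x r)).real univ = vb r := by
    intro x r hr
    rw [measureReal_def, Measure.restrict_apply_univ, vol_ball hr,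
      ENNReal.toReal_ofReal (vb_pos hr).le]
  have hui : ∀ (x : E3) (r : ℝ), IntegrableOn (fun z => m - V f z) (Metric.ball x r) := by
    intro x r
    have := hfinb x r
    exact (integrable_const m).sub (hint x r)
  have hu : ∀ (x : E3) {r : ℝ}, 0 < r →
      ∫ z in Metric.ball x r, (m - V f z) = vb r * (m - V f x + ∫ y, f y * kr r (dist x y)) := by
    intro x r hr
    have := hfinb x r
    have h1 := hfG.mean_diff hR hr x
    have h2 := vb_pos hr
    rw [integral_sub (integrable_const m) (hint x r), integral_const, hvolb x hr, smul_eq_mul, ← h1]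
    field_simp
    ring
  have hIle : ∀ (x : E3) {r : ℝ}, 0 < r → ∫ y, f y * kr r (dist x y) ≤ 2 * Real.pi * r ^ 2 := by
    intro x r hr
    have h1 : Nn r (dist x x) = ∫ y, (Metric.ball x r).indicator (fun y => (dist x y)⁻¹) y := by
      rw [integral_indicator Metric.isOpen_ball.measurableSet, ball_pot hr]
    refine le_trans ?_ (Nn_le hr (dist_nonneg (x := x) (y := x)))
    rw [h1]
    have hne : ∀ᵐ y : E3, y ≠ x := by simp [ae_iff]
    refine integral_mono_of_nonneg ?_
      ((integrable_indicator_iff Metric.isOpen_ball.measurableSet).2 (kern_int hr x x)) ?_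
    · filter_upwards [hne] with y hy
      exact mul_nonneg (hf.nonneg y) (kr_nonneg hr (dist_pos.2 hy.symm))
    · filter_upwards [hne] with y hy
      by_cases hyb : y ∈ Metric.ball x r
      · simp only [indicator_of_mem hyb]
        have h2 := kr_le hr (dist_nonneg (x := x) (y := y))
        have h3 := kr_nonneg hr (dist_pos.2 hy.symm)
        have h4 := hf.le_one y
        have h5 := hf.nonneg y
        nlinarith
      · simp only [indicator_of_notMem hyb]
        rw [Metric.mem_ball, not_lt, dist_comm] at hyb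
        rw [kr_zero hr hyb, mul_zero]
  have hI0 : ∀ (x : E3) {r : ℝ}, 0 < r → 0 ≤ ∫ y, f y * kr r (dist x y) := by
    intro x r hr
    have hne : ∀ᵐ y : E3, y ≠ x := by simp [ae_iff]
    refine integral_nonneg_of_ae ?_
    filter_upwards [hne] with y hy
    exact mul_nonneg (hf.nonneg y) (kr_nonneg hr (dist_pos.2 hy.symm))
  -- quadratic growth
  have hgrow : ∀ x0, V f x0 = m → ∀ r, 0 < r → ∀ y ∈ Metric.ball x0 r,
      m - V f y ≤ 64 * Real.pi * r ^ 2 := by
    intro x0 hx0 r hr y hy
    have h1 := hu y hr
    have h2 := hI0 y hr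
    have h3 := hu x0 (by linarith : 0 < 2 * r)
    have h4 := hIle x0 (by linarith : 0 < 2 * r)
    have h5 : ∫ z in Metric.ball y r, (m - V f z) ≤ ∫ z in Metric.ball x0 (2 * r), (m - V f z) := by
      refine setIntegral_mono_set (hui x0 (2 * r)) ?_ ?_
      · refine ae_of_all _ fun z => ?_
        have := hle z
        simp only [Pi.zero_apply]
        linarith
      · refine HasSubset.Subset.eventuallyLE ?_
        intro z hz
        rw [Metric.mem_ball] at hz hy ⊢
        have := dist_triangle z y x0
        linarith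
    rw [h1, h3, hx0] at h5
    have h6 : vb (2 * r) = 8 * vb r := by unfold vb; ring
    have h7 := vb_pos hr
    rw [h6] at h5
    have h8 : vb r * (m - V f y) ≤ vb r * (64 * Real.pi * r ^ 2) := by
      calc vb r * (m - V f y) ≤ vb r * (m - V f y + ∫ y_1, f y_1 * kr r (dist y y_1)) := by
            apply mul_le_mul_of_nonneg_left _ h7.le
            linarith
        _ ≤ 8 * vb r * (m - m + ∫ y, f y * kr (2 * r) (dist x0 y)) := h5
        _ ≤ 8 * vb r * (2 * Real.pi * (2 * r) ^ 2) := by
            apply mul_le_mul_of_nonneg_left _ (by positivity)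
            linarith
        _ = vb r * (64 * Real.pi * r ^ 2) := by ring
    exact le_of_mul_le_mul_left h8 h7
  have hk0 : ∀ z, 0 ≤ k z := fun z => indicator_nonneg (fun _ _ => zero_le_one) z
  have hkint : ∀ (x : E3) (r : ℝ), IntegrableOn k (Metric.ball x r) := by
    intro x r
    have := hfinb x r
    exact (integrable_const (1:ℝ)).indicator hKc.measurableSet.compl
  -- the comparison of averages
  have hcomp : ∀ x0, V f x0 = m → ∀ r, 0 < r →
      ⨍ y in Metric.closedBall x0 (r / 2), f y ≤ 615 * ⨍ y in Metric.closedBall x0 r, k y := by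
    intro x0 hx0 r hr
    rw [avg_eq (by linarith), avg_eq hr]
    have h1 : ∫ z in Metric.ball x0 r, (m - V f z) ≤
        64 * Real.pi * r ^ 2 * ∫ z in Metric.ball x0 r, k z := by
      rw [← integral_const_mul]
      refine setIntegral_mono_on (hui x0 r) ((hkint x0 r).const_mul _)
        Metric.isOpen_ball.measurableSet ?_
      intro z hz
      by_cases hzK : z ∈ K
      · have : V f z = m := hzK
        rw [this]
        have := hk0 z
        have h2 : k z = 0 := by rw [hk, indicator_of_notMem (by simpa using hzK)]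
        rw [h2]
        simp
      · have h2 : k z = 1 := by rw [hk, indicator_of_mem (by simpa using hzK)]
        rw [h2, mul_one]
        exact hgrow x0 hx0 r hr z hz
    rw [hu x0 hr, hx0] at h1
    have h2 : 5 / (8 * r) * ∫ y in Metric.ball x0 (r / 2), f y ≤ ∫ y, f y * kr r (dist x0 y) := by
      rw [← integral_const_mul, ← integral_indicator Metric.isOpen_ball.measurableSet]
      have hne : ∀ᵐ y : E3, y ≠ x0 := by simp [ae_iff]
      refine integral_mono_of_nonneg ?_ ?_ ?_
      · refine ae_of_all _ fun y => ?_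
        refine indicator_nonneg (fun y _ => ?_) y
        exact mul_nonneg (by positivity) (hf.nonneg y)
      · have h3 : (fun y => f y * kr r (dist x0 y)) =
            fun y => f y * (dist x0 y)⁻¹ - f y * (Nn r (dist x0 y) / vb r) := by
          ext y; unfold kr; ring
        rw [h3]
        refine (hfG.int_kern hR x0).sub ?_
        have hm : Measurable fun y : E3 => Nn r (dist x0 y) := by
          unfold Nn
          apply Measurable.ite (measurableSet_lt (by fun_prop) (by fun_prop)) <;> fun_prop
        refine ((hfG.integrable hR).abs.mul_const (2 * Real.pi * r ^ 2 / vb r)).mono'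
          (by have := hf.meas; fun_prop) (ae_of_all _ fun y => ?_)
        rw [Real.norm_eq_abs, abs_mul, abs_div, abs_of_nonneg (Nn_nonneg hr dist_nonneg),
          abs_of_pos (vb_pos hr)]
        have := vb_pos hr
        gcongr
        exact Nn_le hr dist_nonneg
      · filter_upwards [hne] with y hy
        by_cases hyb : y ∈ Metric.ball x0 (r / 2)
        · rw [indicator_of_mem hyb]
          rw [Metric.mem_ball, dist_comm] at hyb
          have h4 := kr_ge hr (dist_pos.2 hy.symm) hyb.le
          rw [mul_comm]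
          exact mul_le_mul_of_nonneg_left h4 (hf.nonneg y)
        · rw [indicator_of_notMem hyb]
          exact mul_nonneg (hf.nonneg y) (kr_nonneg hr (dist_pos.2 hy.symm))
    have h3 : vb (r / 2) = vb r / 8 := by unfold vb; ring
    have h4 := vb_pos hr
    have h5 : vb r * (5 / (8 * r) * ∫ y in Metric.ball x0 (r / 2), f y) ≤
        64 * Real.pi * r ^ 2 * ∫ z in Metric.ball x0 r, k z := by
      refine le_trans ?_ h1
      apply mul_le_mul_of_nonneg_left _ h4.le
      linarith
    set F := ∫ y in Metric.ball x0 (r / 2), f y with hF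
    set G := ∫ z in Metric.ball x0 r, k z with hG
    have hG0 : 0 ≤ G := integral_nonneg fun z => hk0 z
    have h6 : vb r * (5 / (8 * r) * F) = 5 * Real.pi / 6 * r ^ 2 * F := by
      unfold vb; field_simp; ring
    rw [h6] at h5
    have h7 : 5 / 6 * F ≤ 64 * G := by
      have h8 : (Real.pi * r ^ 2) * (5 / 6 * F) ≤ (Real.pi * r ^ 2) * (64 * G) := by linarith
      exact le_of_mul_le_mul_left h8 (by positivity)
    rw [h3]
    have h9 : F / (vb r / 8) = 8 * F / vb r := by field_simp
    rw [h9, ← mul_div_assoc, div_le_div_iff_of_pos_right h4]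
    linarith
  filter_upwards [a1, a2] with x hx1 hx2 hxm
  have t1 := hx1.comp (Besicovitch.tendsto_filterAt (volume : Measure E3) x)
  have t2 := hx2.comp (Besicovitch.tendsto_filterAt (volume : Measure E3) x)
  have hhalf : Tendsto (fun r : ℝ => r / 2) (𝓝[>] 0) (𝓝[>] 0) := by
    rw [tendsto_nhdsWithin_iff]
    refine ⟨?_, ?_⟩
    · have : Tendsto (fun r : ℝ => r / 2) (𝓝 0) (𝓝 (0 / 2)) := by
        exact (continuous_id.div_const 2).tendsto 0
      rw [zero_div] at this
      exact this.mono_left nhdsWithin_le_nhds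
    · filter_upwards [self_mem_nhdsWithin] with r hr
      have : (0:ℝ) < r := hr
      show (0:ℝ) < r / 2
      linarith
  have t3 := t1.comp hhalf
  have hkx : k x = 0 := by
    rw [hk, indicator_of_notMem]
    simpa [hK] using hxm
  rw [hkx] at t2
  have t4 := t2.const_mul 615
  rw [mul_zero] at t4
  have h9 : f x ≤ 0 := by
    refine le_of_tendsto_of_tendsto t3 t4 ?_
    filter_upwards [self_mem_nhdsWithin] with r hr
    exact hcomp x hxm r hr
  exact le_antisymm h9 (hf.nonneg x)

end Pool.Agent.E8helper16.Shell
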